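import Pool.Agent.W38.UPDb

/-! Uniform positive density of predecessor sets of the `3x+k` maps, uniformly in the root and in `k`. -/

set_option autoImplicit false

namespace Pool.Agent.W36.PDU

open Finset Pool.Agent.H320R2.PD Pool.Agent.H320R2.PD.Cnt Pool.Agent.H366R2.PDK
  Pool.Agent.H366R2.KGen Pool.Agent.W38.UPD

open Pool.Agent.H412R2 in
/-- transfer of a path of the `3x+1` tree to the `3x+k` tree -/
theorem transfer {k : ℤ} (hk : k % 2 = 1) {E n : ℕ} : ∀ {s : ℕ} {x y z u : ℤ},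
    x - k * y = 3 ^ n * u → z ∈ tr 3 E n s y → (TK k)^[s] (k * z + 2 ^ s * u) = x := by
  induction n with
  | zero =>
    intro s x y z u hu hz
    rw [mem_tr_zero] at hz
    obtain ⟨rfl, rfl⟩ := hz
    simp only [Function.iterate_zero, id_eq, pow_zero, one_mul] at hu ⊢
    linarith
  | succ n ih =>
    intro s x y z u hu hz
    obtain ⟨e, b, he, _, hes, hb, hz'⟩ := (mem_tr_succ (by norm_num)).1 hz
    push_cast at hb
    have hj := ih (x := k * b + 3 ^ n * (2 ^ e * u)) (y := b) (u := 2 ^ e * u) (by ring) hz'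
    obtain ⟨e', rfl⟩ : ∃ e', e = e' + 1 := ⟨e - 1, by omega⟩
    have h1 : (2 : ℤ) ^ (s - (e' + 1)) * (2 ^ (e' + 1) * u) = 2 ^ s * u := by
      rw [← mul_assoc, ← pow_add, Nat.sub_add_cancel hes]
    rw [h1] at hj
    have hs : s = e' + (1 + (s - (e' + 1))) := by omega
    have hgoal : (TK k)^[e' + (1 + (s - (e' + 1)))] (k * z + 2 ^ s * u) = x := by
      rw [Function.iterate_add_apply, Function.iterate_add_apply, hj, Function.iterate_one]
      have h2 : 3 * (k * b + 3 ^ n * (2 ^ (e' + 1) * u)) + k = 2 * (2 ^ e' * x) := by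
        have h3 : 3 * (k * b + 3 ^ n * (2 ^ (e' + 1) * u)) + k =
            k * (3 * b + 1) + 2 ^ (e' + 1) * (3 ^ (n + 1) * u) := by ring
        rw [h3, hb, ← hu]
        ring
      have h4 : TK k (k * b + 3 ^ n * (2 ^ (e' + 1) * u)) = 2 ^ e' * x := by
        unfold TK
        rw [if_neg (by omega)]
        omega
      rw [h4, TK_halves]
    rwa [← hs] at hgoal

theorem TK_abs (k z : ℤ) : |TK k z| + |k| ≤ 2 * (|z| + |k|) := by
  unfold TK
  split_ifs with h
  · have h1 : |z / 2| ≤ |z| := by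
      rw [abs_le]
      have := abs_le.1 (le_refl |z|)
      constructor <;> omega
    have := abs_nonneg z
    have := abs_nonneg k
    linarith
  · have h1 : |(3 * z + k) / 2| ≤ 2 * |z| + |k| := by
      have h2 : -|z| ≤ z := neg_abs_le z
      have h3 : z ≤ |z| := le_abs_self z
      have h4 : -|k| ≤ k := neg_abs_le k
      have h5 : k ≤ |k| := le_abs_self k
      have h6 := abs_nonneg z
      have h7 := abs_nonneg k
      rw [abs_le]
      constructor <;> omega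
    have := abs_nonneg k
    linarith

theorem iter_abs (k : ℤ) (j : ℕ) : ∀ z : ℤ, |(TK k)^[j] z| + |k| ≤ 2 ^ j * (|z| + |k|) := by
  induction j with
  | zero => intro z; simp
  | succ j ih =>
    intro z
    rw [Function.iterate_succ_apply]
    have h1 := ih (TK k z)
    have h2 := TK_abs k z
    have h3 : (0 : ℤ) < 2 ^ j := by positivity
    calc |(TK k)^[j] (TK k z)| + |k| ≤ 2 ^ j * (|TK k z| + |k|) := h1
      _ ≤ 2 ^ j * (2 * (|z| + |k|)) := mul_le_mul_of_nonneg_left h2 h3.le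
      _ = _ := by rw [pow_succ]; ring

/-- two periodic points with the same image are equal -/
theorem per_injK {k u v : ℤ} {p q : ℕ} (hp : 1 ≤ p) (hq : 1 ≤ q) (hu : (TK k)^[p] u = u)
    (hv : (TK k)^[q] v = v) (h : TK k u = TK k v) : u = v := by
  have h1 := iter_periodicK hu q
  have h2 := iter_periodicK hv p
  rw [mul_comm q p] at h2
  obtain ⟨m, hm⟩ : ∃ m, p * q = m + 1 := ⟨p * q - 1, by
    have : 1 ≤ p * q := Nat.one_le_iff_ne_zero.2 (by positivity)
    omega⟩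
  rw [hm, Function.iterate_succ_apply] at h1 h2
  rw [← h1, ← h2, h]

/-- an iterate of a periodic point is periodic, contrapositive -/
theorem nonper_ofK {k z a : ℤ} {i : ℕ} (h : (TK k)^[i] z = a)
    (ha : ∀ j, 1 ≤ j → (TK k)^[j] a ≠ a) : ∀ j, 1 ≤ j → (TK k)^[j] z ≠ z := by
  intro j hj hz
  apply ha j hj
  rw [← h, ← Function.iterate_add_apply, add_comm, Function.iterate_add_apply, hz]

/-- a non-periodic point of the size of `a` above `a` -/
theorem exists_nonperK {k a : ℤ} (hk : k % 2 = 1) (hk3 : ¬ (3 : ℤ) ∣ k) (ha : ¬ (3 : ℤ) ∣ a)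
    (hka : |k| ≤ |a|) : ∃ (z : ℤ) (i : ℕ),
    ¬ (3 : ℤ) ∣ z ∧ |z| ≤ 16 * |a| ∧ |a| ≤ 3 * |z| ∧ 0 < z * a ∧ i ≤ 4 ∧ (TK k)^[i] z = a ∧
      ∀ j, 1 ≤ j → (TK k)^[j] z ≠ z := by
  have ha0 : a ≠ 0 := by rintro rfl; exact ha (dvd_zero _)
  have habs : 0 < |a| := abs_pos.2 ha0
  by_cases hall : ∃ i, i ≤ 4 ∧ ∀ j, 1 ≤ j → (TK k)^[j] (2 ^ i * a) ≠ 2 ^ i * a
  · obtain ⟨i, hi, hj⟩ := hall
    have e : |2 ^ i * a| = 2 ^ i * |a| := by
      rw [abs_mul, abs_of_pos (by positivity : (0 : ℤ) < 2 ^ i)]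
    refine ⟨2 ^ i * a, i, ?_, ?_, ?_, ?_, hi, TK_halves k i a, hj⟩
    · intro h
      have hc : IsCoprime (3 : ℤ) (2 ^ i) := IsCoprime.pow_right (by norm_num)
      exact ha (hc.dvd_of_dvd_mul_left h)
    · have : (2 : ℤ) ^ i ≤ 2 ^ 4 := pow_le_pow_right₀ (by norm_num) hi
      rw [e]
      nlinarith
    · have : (1 : ℤ) ≤ 2 ^ i := one_le_pow₀ (by norm_num)
      rw [e]
      nlinarith
    · have e2 : 2 ^ i * a * a = 2 ^ i * (a * a) := by ring
      rw [e2]
      have : 0 < a * a := mul_self_pos.2 ha0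
      positivity
  · push Not at hall
    -- choose `i ≤ 3` with `2^(i+1) a - k ≡ 3, 6 mod 9`
    obtain ⟨i, hi, h9⟩ : ∃ i, i ≤ 3 ∧
        ((2 * (2 ^ i * a) - k) % 9 = 3 ∨ (2 * (2 ^ i * a) - k) % 9 = 6) := by
      have h : a % 9 = 1 ∨ a % 9 = 2 ∨ a % 9 = 4 ∨ a % 9 = 5 ∨ a % 9 = 7 ∨ a % 9 = 8 := by omega
      have h' : k % 9 = 1 ∨ k % 9 = 2 ∨ k % 9 = 4 ∨ k % 9 = 5 ∨ k % 9 = 7 ∨ k % 9 = 8 := by omega
      by_contra hcon
      push Not at hcon
      have c0 := hcon 0 (by norm_num)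
      have c1 := hcon 1 (by norm_num)
      have c2 := hcon 2 (by norm_num)
      have c3 := hcon 3 (by norm_num)
      norm_num at c0 c1 c2 c3
      omega
    set y : ℤ := 2 ^ i * a with hy
    have hyabs : |y| = 2 ^ i * |a| := by
      rw [hy, abs_mul, abs_of_pos (by positivity : (0 : ℤ) < 2 ^ i)]
    have hya : 0 < y * a := by
      have e2 : y * a = 2 ^ i * (a * a) := by rw [hy]; ring
      rw [e2]
      have : 0 < a * a := mul_self_pos.2 ha0
      positivity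
    obtain ⟨p, hp, hper⟩ := hall (i + 1) (by omega)
    have hy2 : (2 : ℤ) ^ (i + 1) * a = 2 * y := by rw [hy]; ring
    rw [hy2] at hper
    obtain ⟨b, hb⟩ : ∃ b, 3 * b = 2 * y - k := ⟨(2 * y - k) / 3, by omega⟩
    have hTb : TK k b = y := by
      unfold TK
      rw [if_neg (by omega)]
      omega
    have hT2 : TK k (2 * y) = y := by
      unfold TK
      rw [if_pos (by omega)]
      omega
    have hle : (2 : ℤ) ^ i ≤ 2 ^ 3 := pow_le_pow_right₀ (by norm_num) hi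
    have h1le : (1 : ℤ) ≤ 2 ^ i := one_le_pow₀ (by norm_num)
    have hyle : |y| ≤ 8 * |a| := by rw [hyabs]; nlinarith
    have hyge : |a| ≤ |y| := by rw [hyabs]; nlinarith
    have hbabs : 3 * |b| = |2 * y - k| := by rw [← hb, abs_mul]; rfl
    have hb1 : |2 * y - k| ≤ 2 * |y| + |k| := by
      have := abs_sub (2 * y) k
      rw [abs_mul] at this
      exact this
    have hb2 : 2 * |y| - |k| ≤ |2 * y - k| := by
      have := abs_sub_abs_le_abs_sub (2 * y) k
      rw [abs_mul] at this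
      exact this
    refine ⟨b, i + 1, by omega, by linarith, by linarith, ?_, by omega, ?_, ?_⟩
    · -- sign
      have h3 : 3 * (b * a) = 2 * (y * a) - k * a := by linear_combination a * hb
      have h4 : k * a ≤ |k| * |a| := by rw [← abs_mul]; exact le_abs_self _
      have h5 : y * a = |y| * |a| := by rw [← abs_mul, abs_of_pos hya]
      have h6 : |k| * |a| ≤ |y| * |a| := mul_le_mul_of_nonneg_right (hka.trans hyge) habs.le
      linarith
    · rw [Function.iterate_succ_apply, hTb, hy]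
      exact TK_halves k i a
    · intro j hj hbj
      have h1 := per_injK hj hp hbj hper (by rw [hTb, hT2])
      omega

open Pool.Agent.H412R2 in
/-- the root can be moved into the good class, at bounded cost, uniformly in `k` -/
theorem moveK (N : ℕ) (r : ℤ) (hr : ¬ (3 : ℤ) ∣ r) (L : ℕ) :
    ∃ J : ℕ, ∀ k a : ℤ, k % 2 = 1 → ¬ (3 : ℤ) ∣ k → ¬ (3 : ℤ) ∣ a → |k| ≤ |a| →
      ∃ (b : ℤ) (j : ℕ), j ≤ J ∧ 2 ^ L * |k| ≤ |b| ∧
        |b| ≤ 2 ^ J * |a| ∧ 0 < b * a ∧ (3 : ℤ) ^ N ∣ b - k * r ∧ (TK k)^[j] b = a ∧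
        ∀ i, 1 ≤ i → (TK k)^[i] b ≠ b := by
  obtain ⟨E, n₁, hn₁⟩ := hit2 N r hr
  set φ := Nat.totient (3 ^ N) with hφ
  have hφ0 : 0 < φ := Nat.totient_pos.2 (by positivity)
  have h2φ := two_pow_tot N
  rw [← hφ] at h2φ
  set J' : ℕ := E * n₁ + φ with hJ'
  set A : ℕ := 2 + J' + L + 1 + 2 * n₁ with hA
  refine ⟨A + J' + 6, fun k a hk hk3 ha hka => ?_⟩
  have hk0 : k ≠ 0 := by rintro rfl; simp at hk
  have hkpos : 0 < |k| := abs_pos.2 hk0
  set a₁ : ℤ := 2 ^ A * a with ha₁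
  have ha₁abs : |a₁| = 2 ^ A * |a| := by
    rw [ha₁, abs_mul, abs_of_pos (by positivity : (0 : ℤ) < 2 ^ A)]
  have ha₁3 : ¬ (3 : ℤ) ∣ a₁ := by
    intro h
    have hc : IsCoprime (3 : ℤ) (2 ^ A) := IsCoprime.pow_right (by norm_num)
    exact ha (hc.dvd_of_dvd_mul_left h)
  have hA1 : (1 : ℤ) ≤ 2 ^ A := one_le_pow₀ (by norm_num)
  have hka₁ : 2 ^ A * |k| ≤ |a₁| := by
    rw [ha₁abs]
    exact mul_le_mul_of_nonneg_left hka (by positivity)
  have hka₁' : |k| ≤ |a₁| := by nlinarith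
  obtain ⟨z, i, hz3, hz16, hz3', hza, hi4, hzi, hznp⟩ := exists_nonperK hk hk3 ha₁3 hka₁'
  -- the size of `z`
  have hzbig : 2 ^ A * |k| ≤ 3 * |z| := hka₁.trans hz3'
  have hA2 : (2 : ℤ) ^ A = 8 * 2 ^ J' * 2 ^ L * 2 ^ (2 * n₁) := by
    rw [hA, pow_add, pow_add, pow_add, pow_add]; ring
  have h4n : (3 : ℤ) ^ n₁ ≤ 2 ^ (2 * n₁) := by
    rw [pow_mul]; norm_num
    exact pow_le_pow_left₀ (by norm_num) (by norm_num) n₁
  have hJp : (1 : ℤ) ≤ 2 ^ J' := one_le_pow₀ (by norm_num)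
  have hLp : (1 : ℤ) ≤ 2 ^ L := one_le_pow₀ (by norm_num)
  have hnp : (1 : ℤ) ≤ 2 ^ (2 * n₁) := one_le_pow₀ (by norm_num)
  have h3n : (1 : ℤ) ≤ 3 ^ n₁ := one_le_pow₀ (by norm_num)
  have hzk : |k| * 3 ^ n₁ < |z| := by
    have h1 : 8 * (|k| * 3 ^ n₁) ≤ 2 ^ A * |k| := by
      rw [hA2]
      have : 8 * 2 ^ J' * 2 ^ L * 2 ^ (2 * n₁) * |k| = (2 ^ J' * 2 ^ L) * (8 * (|k| * 2 ^ (2 * n₁))) := by
        ring
      rw [this]
      have h2 : (1 : ℤ) ≤ 2 ^ J' * 2 ^ L := one_le_mul_of_one_le_of_one_le hJp hLp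
      have h3 : 8 * (|k| * 3 ^ n₁) ≤ 8 * (|k| * 2 ^ (2 * n₁)) := by
        have := mul_le_mul_of_nonneg_left h4n hkpos.le
        linarith
      have h4 : 0 ≤ 8 * (|k| * 2 ^ (2 * n₁)) := by positivity
      nlinarith
    have h5 : 0 < |k| * 3 ^ n₁ := by positivity
    linarith
  -- the hitting lemma
  set M := n₁ + N with hM
  obtain ⟨u, v, huv⟩ := coprime_k hk3 M
  set y : ℤ := z * u with hy
  have hyk : z - k * y = 3 ^ M * (z * v) := by
    have : z = z * (u * k + v * 3 ^ M) := by rw [huv, mul_one]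
    rw [hy]
    linear_combination this
  by_cases hM0 : M = 0
  · -- `N = 0`, `n₁ = 0`
    have hN0 : N = 0 := by omega
    refine ⟨z, i + A, by omega, ?_, ?_, ?_, by rw [hN0, pow_zero]; exact one_dvd _, ?_, hznp⟩
    · have h1 : 3 * (2 ^ L * |k|) ≤ 2 ^ A * |k| := by
        rw [hA2]
        have : 8 * 2 ^ J' * 2 ^ L * 2 ^ (2 * n₁) * |k| =
            (2 ^ J' * 2 ^ (2 * n₁)) * (8 * (2 ^ L * |k|)) := by ring
        rw [this]
        have h2 : (1 : ℤ) ≤ 2 ^ J' * 2 ^ (2 * n₁) := one_le_mul_of_one_le_of_one_le hJp hnp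
        have h4 : 0 ≤ 8 * (2 ^ L * |k|) := by positivity
        nlinarith
      linarith
    · calc |z| ≤ 16 * |a₁| := hz16
        _ = 2 ^ (A + 4) * |a| := by rw [ha₁abs, pow_add]; ring
        _ ≤ 2 ^ (A + J' + 6) * |a| := by
          apply mul_le_mul_of_nonneg_right _ (abs_nonneg _)
          exact pow_le_pow_right₀ (by norm_num) (by omega)
    · have e : z * a₁ = 2 ^ A * (z * a) := by rw [ha₁]; ring
      rw [e] at hza
      exact (mul_pos_iff_of_pos_left (by positivity)).1 hza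
    · rw [add_comm, Function.iterate_add_apply, hzi, ha₁, TK_halves]
  have hy3 : ¬ (3 : ℤ) ∣ y := by
    intro h
    apply hz3
    have h1 : (3 : ℤ) ∣ 3 ^ M * (z * v) := Dvd.dvd.mul_right (dvd_pow_self 3 hM0) _
    have h2 : (3 : ℤ) ∣ k * y := Dvd.dvd.mul_left h k
    have h3 : z = 3 ^ M * (z * v) + k * y := by linarith
    rw [h3]
    exact dvd_add h1 h2
  obtain ⟨n, s, x', hn, hx', hcl⟩ := hn₁ y hy3
  have hs : s ≤ E * n₁ := (tr_facts hx').2.1.trans (Nat.mul_le_mul_left _ hn)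
  set t : ℤ := 3 ^ (M - n) * (z * v) with ht
  have hyt : z - k * y = 3 ^ n * t := by
    have e0 : (3 : ℤ) ^ M = 3 ^ n * 3 ^ (M - n) := by rw [← pow_add, Nat.add_sub_cancel' (by omega)]
    rw [hyk, ht, e0]
    ring
  have hNt : (3 : ℤ) ^ N ∣ t := by
    rw [ht]
    exact Dvd.dvd.mul_right (pow_dvd_pow 3 (by omega)) _
  have hj := transfer hk hyt hx'
  have o1 := tr_off_nonneg (by norm_num) hx'
  have o2 := tr_off_le (by norm_num) hx'
  push_cast at o1 o2
  set x : ℤ := k * x' + 2 ^ s * t with hx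
  have hz0 : 0 < |z| := lt_of_le_of_lt (by positivity) hzk
  have hx3n : 3 ^ n * x = 2 ^ s * z - k * (2 ^ s * y - 3 ^ n * x') := by
    rw [hx]
    linear_combination (-(2 : ℤ) ^ s) * hyt
  have h3np : (0 : ℤ) < 3 ^ n := by positivity
  have h2sp : (0 : ℤ) < 2 ^ s := by positivity
  -- the sign
  have hsign : 0 < x * z := by
    have e1 : 3 ^ n * (x * z) = 2 ^ s * (|z| * |z|) - k * (2 ^ s * y - 3 ^ n * x') * z := by
      rw [abs_mul_abs_self]
      linear_combination z * hx3n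
    have e2 : k * (2 ^ s * y - 3 ^ n * x') * z ≤ |k| * (2 ^ s * 3 ^ n) * |z| := by
      have e3 : |k * (2 ^ s * y - 3 ^ n * x') * z| = |k| * (2 ^ s * y - 3 ^ n * x') * |z| := by
        rw [abs_mul, abs_mul, abs_of_nonneg o1]
      refine (le_abs_self _).trans ?_
      rw [e3]
      gcongr
    have e4 : |k| * 3 ^ n ≤ |k| * 3 ^ n₁ :=
      mul_le_mul_of_nonneg_left (pow_le_pow_right₀ (by norm_num) hn) (abs_nonneg k)
    have e5 : 0 < 2 ^ s * |z| * (|z| - |k| * 3 ^ n) := by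
      apply mul_pos (by positivity)
      linarith
    have e6 : 0 < 3 ^ n * (x * z) := by
      rw [e1]
      have : 2 ^ s * |z| * (|z| - |k| * 3 ^ n) =
          2 ^ s * (|z| * |z|) - |k| * (2 ^ s * 3 ^ n) * |z| := by ring
      linarith
    exact (mul_pos_iff_of_pos_left (by positivity)).1 e6
  -- the upper bound
  have hxle : |x| ≤ 2 ^ s * (|z| + |k|) := by
    have e1 : 3 ^ n * |x| = |2 ^ s * z - k * (2 ^ s * y - 3 ^ n * x')| := by
      rw [← hx3n, abs_mul, abs_of_pos h3np]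
    have e2 := abs_sub (2 ^ s * z) (k * (2 ^ s * y - 3 ^ n * x'))
    rw [abs_mul, abs_mul, abs_of_pos h2sp, abs_of_nonneg o1] at e2
    have e3 : |k| * (2 ^ s * y - 3 ^ n * x') ≤ |k| * (2 ^ s * 3 ^ n) :=
      mul_le_mul_of_nonneg_left (by linarith) (abs_nonneg _)
    have e4 : 2 ^ s * |z| ≤ 3 ^ n * (2 ^ s * |z|) := by
      have : (1 : ℤ) ≤ 3 ^ n := one_le_pow₀ (by norm_num)
      have h5 : 0 ≤ 2 ^ s * |z| := by positivity
      nlinarith
    have e5 : 3 ^ n * |x| ≤ 3 ^ n * (2 ^ s * (|z| + |k|)) := by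
      rw [e1]
      calc _ ≤ _ := e2
        _ ≤ 3 ^ n * (2 ^ s * |z|) + |k| * (2 ^ s * 3 ^ n) := by linarith
        _ = _ := by ring
    exact le_of_mul_le_mul_left e5 h3np
  -- the last multiplication by a power of two
  obtain ⟨t', ht'φ, ht'cl⟩ : ∃ t' : ℕ, t' ≤ φ ∧ (3 : ℤ) ^ N ∣ 2 ^ t' * x - k * r := by
    rcases hcl with h | h
    · refine ⟨0, by omega, ?_⟩
      have e : (2 : ℤ) ^ 0 * x - k * r = k * (x' - r) + 2 ^ s * t := by rw [hx]; ring
      rw [e]
      exact dvd_add (Dvd.dvd.mul_left h k) (Dvd.dvd.mul_left hNt _)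
    · obtain ⟨m', hm'⟩ : ∃ m', φ = m' + 1 := ⟨φ - 1, by omega⟩
      refine ⟨m', by omega, ?_⟩
      have e : 2 ^ m' * x - k * r = 2 ^ m' * k * (x' - 2 * r) +
          (2 ^ (m' + 1) - 1) * (k * r) + 2 ^ m' * 2 ^ s * t := by rw [hx]; ring
      rw [e]
      apply dvd_add (dvd_add (Dvd.dvd.mul_left h _) _) (Dvd.dvd.mul_left hNt _)
      rw [← hm']
      exact Dvd.dvd.mul_right h2φ _
  set b : ℤ := 2 ^ t' * x with hb
  have hbabs : |b| = 2 ^ t' * |x| := by
    rw [hb, abs_mul, abs_of_pos (by positivity : (0 : ℤ) < 2 ^ t')]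
  have hbz : (TK k)^[s + t'] b = z := by
    rw [Function.iterate_add_apply, hb, TK_halves]
    exact hj
  have hst : s + t' ≤ J' := by omega
  refine ⟨b, A + (i + (s + t')), by omega, ?_, ?_, ?_, ht'cl, ?_, nonper_ofK hbz hznp⟩
  · -- lower bound for `|b|`
    have h1 := iter_abs k (s + t') b
    rw [hbz] at h1
    have h2 : (2 : ℤ) ^ (s + t') ≤ 2 ^ J' := pow_le_pow_right₀ (by norm_num) hst
    have h3 : |z| + |k| ≤ 2 ^ J' * (|b| + |k|) := by
      refine h1.trans (mul_le_mul_of_nonneg_right h2 ?_)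
      have := abs_nonneg b
      linarith
    have h4 : 2 ^ J' * (8 * 2 ^ L * |k|) ≤ 2 ^ J' * (3 * (|b| + |k|)) := by
      have h5 : 2 ^ J' * (8 * 2 ^ L * |k|) ≤ 2 ^ A * |k| := by
        rw [hA2]
        have h6 : 8 * 2 ^ J' * 2 ^ L * 2 ^ (2 * n₁) * |k| =
            2 ^ (2 * n₁) * (2 ^ J' * (8 * 2 ^ L * |k|)) := by ring
        rw [h6]
        have h7 : 0 ≤ 2 ^ J' * (8 * 2 ^ L * |k|) := by positivity
        nlinarith
      have h8 : 2 ^ J' * (3 * (|b| + |k|)) = 3 * (2 ^ J' * (|b| + |k|)) := by ring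
      rw [h8]
      linarith
    have h9 := le_of_mul_le_mul_left h4 (by positivity : (0 : ℤ) < 2 ^ J')
    have h10 : |k| ≤ 2 ^ L * |k| := by nlinarith
    linarith
  · -- upper bound for `|b|`
    have h1 : |k| ≤ |z| := by nlinarith
    have h2 : |x| ≤ 2 ^ s * (2 * |z|) := by
      refine hxle.trans (mul_le_mul_of_nonneg_left (by linarith) h2sp.le)
    calc |b| = 2 ^ t' * |x| := hbabs
      _ ≤ 2 ^ t' * (2 ^ s * (2 * |z|)) := mul_le_mul_of_nonneg_left h2 (by positivity)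
      _ ≤ 2 ^ t' * (2 ^ s * (2 * (16 * |a₁|))) := by gcongr
      _ = 2 ^ (s + t') * 2 ^ (A + 5) * |a| := by rw [ha₁abs, pow_add, pow_add]; ring
      _ ≤ 2 ^ J' * 2 ^ (A + 5) * |a| := by
          apply mul_le_mul_of_nonneg_right _ (abs_nonneg _)
          apply mul_le_mul_of_nonneg_right _ (by positivity)
          exact pow_le_pow_right₀ (by norm_num) hst
      _ ≤ 2 ^ (A + J' + 6) * |a| := by
          rw [← pow_add]
          apply mul_le_mul_of_nonneg_right _ (abs_nonneg _)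
          exact pow_le_pow_right₀ (by norm_num) (by omega)
  · -- sign
    have e1 : 0 < (b * a) * (2 ^ A * (z * z)) := by
      have e2 : (b * a) * (2 ^ A * (z * z)) = 2 ^ t' * (x * z) * (z * a₁) := by
        rw [hb, ha₁]; ring
      rw [e2]
      exact mul_pos (mul_pos (by positivity) hsign) hza
    have e3 : 0 ≤ 2 ^ A * (z * z) := mul_nonneg (by positivity) (mul_self_nonneg z)
    by_contra hcon
    push Not at hcon
    have := mul_nonpos_of_nonpos_of_nonneg hcon e3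
    linarith
  · rw [Function.iterate_add_apply (TK k) A, Function.iterate_add_apply (TK k) i, hbz, hzi, ha₁,
      TK_halves]

end Pool.Agent.W36.PDU
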