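import Pool.Agent.W36.PDU

/-! Uniform positive density of predecessor sets of the `3x+k` maps: the main theorem. -/

set_option autoImplicit false

namespace Pool.Agent.W36.PDU

open Finset Pool.Agent.H320R2.PD Pool.Agent.H320R2.PD.Cnt Pool.Agent.H366R2.PDK
  Pool.Agent.H366R2.KGen Pool.Agent.W38.UPD

theorem len_le_sum : ∀ {w : List ℕ}, (∀ e ∈ w, 1 ≤ e) → w.length ≤ w.sum := by
  intro w
  induction w with
  | nil => simp
  | cons e w ih =>
    intro h1
    have he : 1 ≤ e := h1 e List.mem_cons_self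
    have := ih (fun e he => h1 e (List.mem_cons_of_mem _ he))
    simp only [List.length_cons, List.sum_cons]
    omega

/-- the theorem for a root at least as large as `k` -/
theorem mainK : ∃ c C : ℝ, 0 < c ∧ 0 < C ∧ ∀ k a : ℤ, k % 2 = 1 → ¬ (3 : ℤ) ∣ k → ¬ (3 : ℤ) ∣ a →
    |k| ≤ |a| → ∀ X : ℝ, |(a : ℝ)| ≤ X →
    ∃ S : Finset ℤ, (∀ z ∈ S, X / 2 < |(z : ℝ)| ∧ |(z : ℝ)| ≤ X ∧ 0 < z * a ∧
      ∃ j : ℕ, (j : ℝ) ≤ C * (1 + Real.log (X / |(a : ℝ)|)) ∧ (TK k)^[j] z = a) ∧
      c * X / |(a : ℝ)| ≤ S.card := by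
  classical
  have quenched : QStmt := fun N0 => quenched_of decay N0
  obtain ⟨N0, N, r, hN0, hN1, hr, hU⟩ := good_class_of fun N0 => quenched_of decay N0
  obtain ⟨K, hK1, hK⟩ := count2 quenched hN0
  obtain ⟨J, hJ⟩ := moveK N r hr (N0 + 5)
  have hJ0 : (0 : ℝ) < 2 ^ J := by positivity
  have hJ1 : (1 : ℝ) ≤ 2 ^ J := one_le_pow₀ (by norm_num)
  refine ⟨1 / (160 * K * 2 ^ J), 37 * J + 72, by positivity, by positivity, ?_⟩
  intro k a hk hk3 ha hka X hX
  have hk0 : k ≠ 0 := by rintro rfl; simp at hk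
  have ha0 : a ≠ 0 := by rintro rfl; exact ha (dvd_zero _)
  have haZ : (1 : ℤ) ≤ |a| := Int.one_le_abs ha0
  have haR : (1 : ℝ) ≤ |(a : ℝ)| := by exact_mod_cast haZ
  set α : ℝ := |(a : ℝ)| with hα
  have haR0 : (0 : ℝ) < α := by linarith
  have hX0 : 0 < X := by linarith
  have hXa : 1 ≤ X / α := by rw [le_div_iff₀ haR0]; linarith
  have hlog : 0 ≤ Real.log (X / α) := Real.log_nonneg hXa
  have hJR : (0 : ℝ) ≤ J := by positivity
  obtain ⟨b, j, hjJ, hbL, hba, hbs, hbr, hbj, hbnp⟩ := hJ k a hk hk3 ha hka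
  have hb0 : b ≠ 0 := by rintro rfl; simp at hbs
  set β : ℝ := |(b : ℝ)| with hβ
  have hbZ : (1 : ℤ) ≤ |b| := Int.one_le_abs hb0
  have hbR0 : (0 : ℝ) < β := by
    have : (1 : ℝ) ≤ |(b : ℝ)| := by exact_mod_cast hbZ
    linarith
  have hbaR : β ≤ 2 ^ J * α := by rw [hβ, hα]; exact_mod_cast hba
  have hbLR : (2 : ℝ) ^ (N0 + 5) * |(k : ℝ)| ≤ β := by rw [hβ]; exact_mod_cast hbL
  have hkR : 0 < |(k : ℝ)| := abs_pos.2 (by exact_mod_cast hk0)
  -- `a` is not much larger than `b`
  have habR : α ≤ 2 ^ (J + 1) * β := by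
    have h1 := iter_abs k j b
    rw [hbj] at h1
    have h2 : (2 : ℤ) ^ j ≤ 2 ^ J := pow_le_pow_right₀ (by norm_num) hjJ
    have h3 : |k| ≤ |b| := by
      have : (1 : ℤ) ≤ 2 ^ (N0 + 5) := one_le_pow₀ (by norm_num)
      have := abs_nonneg k
      nlinarith
    have h4 : |a| ≤ 2 ^ (J + 1) * |b| := by
      calc |a| ≤ |a| + |k| := by have := abs_nonneg k; linarith
        _ ≤ 2 ^ j * (|b| + |k|) := h1
        _ ≤ 2 ^ J * (|b| + |b|) := by
            apply mul_le_mul h2 (by linarith) _ (by positivity)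
            have := abs_nonneg b
            have := abs_nonneg k
            linarith
        _ = _ := by rw [pow_succ]; ring
    rw [hβ, hα]
    exact_mod_cast h4
  by_cases hsmall : X < 5 / 4 * K * β
  · -- a single power of two times `a`
    obtain ⟨i, hi1, hi2⟩ : ∃ i : ℕ, X / 2 < 2 ^ i * α ∧ 2 ^ i * α ≤ X := by
      obtain ⟨n, h1, h2⟩ := exists_nat_pow_near hXa (by norm_num : (1 : ℝ) < 2)
      refine ⟨n, ?_, ?_⟩
      · rw [div_lt_iff₀ haR0, pow_succ] at h2
        linarith
      · rw [le_div_iff₀ haR0] at h1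
        exact h1
    refine ⟨{2 ^ i * a}, ?_, ?_⟩
    · intro z hz
      rw [Finset.mem_singleton] at hz
      subst hz
      have e : |((2 ^ i * a : ℤ) : ℝ)| = 2 ^ i * α := by
        push_cast
        rw [abs_mul, abs_of_pos (by positivity : (0 : ℝ) < 2 ^ i)]
      refine ⟨by rw [e]; exact hi1, by rw [e]; exact hi2, ?_, i, ?_, TK_halves k i a⟩
      · have e2 : 2 ^ i * a * a = 2 ^ i * (a * a) := by ring
        rw [e2]
        have : 0 < a * a := mul_self_pos.2 ha0
        positivity
      · have h1 : (2 : ℝ) ^ i ≤ X / α := by rw [le_div_iff₀ haR0]; exact hi2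
        have h2 := Real.log_le_log (by positivity) h1
        rw [Real.log_pow] at h2
        have h3 := Real.log_two_gt_d9
        have hi0 : (0 : ℝ) ≤ i := by positivity
        have h4 : (i : ℝ) ≤ 2 * Real.log (X / α) := by nlinarith
        nlinarith [mul_nonneg hJR hlog]
    · rw [Finset.card_singleton]
      have h1 : X ≤ 5 / 4 * K * (2 ^ J * α) := by
        have : 5 / 4 * K * β ≤ 5 / 4 * K * (2 ^ J * α) :=
          mul_le_mul_of_nonneg_left hbaR (by linarith)
        linarith
      rw [div_mul_eq_mul_div, one_mul, div_div, div_le_iff₀ (by positivity)]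
      push_cast
      have : 0 ≤ K * (2 ^ J * α) := by positivity
      nlinarith
  · push Not at hsmall
    set Y : ℝ := 4 / 5 * X / β with hY
    have hKY : K ≤ Y := by rw [hY, le_div_iff₀ hbR0]; linarith
    have hY1 : 1 ≤ Y := hK1.trans hKY
    have hY0 : 0 < Y := by linarith
    have hYb : Y * β = 4 / 5 * X := by rw [hY]; field_simp
    set M : ℕ := ⌈35 * Real.log Y⌉₊ + N with hM
    obtain ⟨u, v, huv⟩ := coprime_k hk3 M
    set y : ℤ := b * u with hy
    have hyk : b - k * y = 3 ^ M * (b * v) := by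
      have : b = b * (u * k + v * 3 ^ M) := by rw [huv, mul_one]
      rw [hy]
      linear_combination this
    have hyr : (3 : ℤ) ^ N ∣ y - r := by
      have h1 : (3 : ℤ) ^ N ∣ k * (y - r) := by
        have e : k * (y - r) = (b - k * r) - 3 ^ M * (b * v) := by linear_combination -hyk
        rw [e]
        exact dvd_sub hbr (Dvd.dvd.mul_right (pow_dvd_pow 3 (by omega)) _)
      exact (coprime_k hk3 N).symm.dvd_of_dvd_mul_left h1
    obtain ⟨S, hS, hc⟩ := hK Y hKY y (hU y hyr)
    set f : List ℕ → ℤ := fun w => (2 ^ w.sum * b - k * Wo w) / 3 ^ w.length with hf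
    have hlen : ∀ w ∈ S, w.length ≤ M := by
      intro w hw
      obtain ⟨h1, _, _, _, _, h6⟩ := hS w hw
      have h2 : w.length ≤ w.sum := len_le_sum h1
      have h3 : (w.sum : ℝ) ≤ ⌈35 * Real.log Y⌉₊ := h6.trans (Nat.le_ceil _)
      have h4 : w.sum ≤ ⌈35 * Real.log Y⌉₊ := by exact_mod_cast h3
      omega
    have hval : ∀ w ∈ S, (3 : ℤ) ^ w.length ∣ 2 ^ w.sum * b - k * Wo w := by
      intro w hw
      obtain ⟨_, h2, _, _, _, _⟩ := hS w hw
      have e : 2 ^ w.sum * b - k * Wo w = k * (2 ^ w.sum * y - Wo w) +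
          3 ^ M * (2 ^ w.sum * (b * v)) := by
        linear_combination (2 : ℤ) ^ w.sum * hyk
      rw [e]
      exact dvd_add (Dvd.dvd.mul_left h2 k) (Dvd.dvd.mul_right (pow_dvd_pow 3 (hlen w hw)) _)
    have hinj : ∀ w ∈ S, ∀ w' ∈ S, f w = f w' → w = w' := fun w hw w' hw' he =>
      endpoint_injK hk hk0 hbnp (hS w hw).1 (hS w' hw').1 (hval w hw) (hval w' hw') he
    have hreach : ∀ w ∈ S, (TK k)^[w.sum] (f w) = b := fun w hw =>
      endpoint_reachK hk (hS w hw).1 (hval w hw)
    have hq : ∀ w ∈ S, (3 : ℝ) ^ w.length * (f w : ℝ) = 2 ^ w.sum * b - k * Wo w := by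
      intro w hw
      have h1 : (3 : ℤ) ^ w.length * f w = 2 ^ w.sum * b - k * Wo w :=
        Int.mul_ediv_cancel' (hval w hw)
      exact_mod_cast h1
    have hWk : ∀ w ∈ S, |(k : ℝ) * Wo w| ≤ 2 ^ w.sum * β / 4 := by
      intro w hw
      obtain ⟨_, _, _, _, h4, _⟩ := hS w hw
      have h2p : (0 : ℝ) < 2 ^ w.sum := by positivity
      rw [abs_mul, abs_of_nonneg (by positivity : (0 : ℝ) ≤ (Wo w : ℝ))]
      calc |(k : ℝ)| * Wo w ≤ |(k : ℝ)| * (5 * 2 ^ N0 * 2 ^ w.sum) :=
            mul_le_mul_of_nonneg_left h4 hkR.le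
        _ = 2 ^ w.sum * (5 * (2 ^ N0 * |(k : ℝ)|)) := by ring
        _ ≤ 2 ^ w.sum * (β / 4) := by
            apply mul_le_mul_of_nonneg_left _ h2p.le
            rw [pow_add] at hbLR
            have : (0 : ℝ) ≤ 2 ^ N0 * |(k : ℝ)| := by positivity
            linarith
        _ = _ := by ring
    have hsize : ∀ w ∈ S, X * (3 / 10) ≤ |(f w : ℝ)| ∧ |(f w : ℝ)| ≤ X := by
      intro w hw
      obtain ⟨_, _, h3, h4, _, _⟩ := hS w hw
      have h3p : (0 : ℝ) < 3 ^ w.length := by positivity
      have h2p : (0 : ℝ) < 2 ^ w.sum := by positivity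
      have e1 : (3 : ℝ) ^ w.length * |(f w : ℝ)| = |(2 : ℝ) ^ w.sum * b - k * Wo w| := by
        rw [← hq w hw, abs_mul, abs_of_pos h3p]
      have e2 := abs_sub ((2 : ℝ) ^ w.sum * b) ((k : ℝ) * Wo w)
      have e3 := abs_sub_abs_le_abs_sub ((2 : ℝ) ^ w.sum * b) ((k : ℝ) * Wo w)
      rw [abs_mul, abs_of_pos h2p] at e2 e3
      have e4 := hWk w hw
      constructor
      · have h6 : (3 : ℝ) ^ w.length * (X * (3 / 10)) ≤ 3 ^ w.length * |(f w : ℝ)| := by
          rw [e1]
          have h7 : Y * 3 ^ w.length * β ≤ 2 * (2 : ℝ) ^ w.sum * β :=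
            mul_le_mul_of_nonneg_right h3 hbR0.le
          have h8 : Y * 3 ^ w.length * β = 3 ^ w.length * (4 / 5 * X) := by rw [← hYb]; ring
          linarith
        exact le_of_mul_le_mul_left h6 h3p
      · have h6 : (3 : ℝ) ^ w.length * |(f w : ℝ)| ≤ 3 ^ w.length * X := by
          rw [e1]
          have h7 : (2 : ℝ) ^ w.sum * β ≤ Y * 3 ^ w.length * β :=
            mul_le_mul_of_nonneg_right h4 hbR0.le
          have h8 : Y * 3 ^ w.length * β = 3 ^ w.length * (4 / 5 * X) := by rw [← hYb]; ring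
          linarith
        exact le_of_mul_le_mul_left h6 h3p
    have hfs : ∀ w ∈ S, 0 < f w * a := by
      intro w hw
      have h3p : (0 : ℝ) < 3 ^ w.length := by positivity
      have h2p : (0 : ℝ) < 2 ^ w.sum := by positivity
      have e1 := hq w hw
      have e4 := hWk w hw
      have e3 : (0 : ℝ) < (f w : ℝ) * b := by
        have e5 : (3 : ℝ) ^ w.length * ((f w : ℝ) * b) =
            2 ^ w.sum * (β * β) - k * Wo w * b := by
          rw [hβ, abs_mul_abs_self]
          linear_combination (b : ℝ) * e1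
        have e6 : (k : ℝ) * Wo w * b ≤ 2 ^ w.sum * β / 4 * β := by
          refine (le_abs_self _).trans ?_
          rw [abs_mul]
          exact mul_le_mul_of_nonneg_right e4 (abs_nonneg _)
        have e7 : 0 < (3 : ℝ) ^ w.length * ((f w : ℝ) * b) := by
          rw [e5]
          have : 0 < 2 ^ w.sum * (β * β) := by positivity
          nlinarith
        exact (mul_pos_iff_of_pos_left (by positivity)).1 e7
      have e4' : 0 < f w * b := by exact_mod_cast e3
      have e5 : 0 < (f w * a) * (b * b) := by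
        have : (f w * a) * (b * b) = (f w * b) * (b * a) := by ring
        rw [this]
        exact mul_pos e4' hbs
      by_contra hcon
      push Not at hcon
      have := mul_nonpos_of_nonpos_of_nonneg hcon (mul_self_nonneg b)
      linarith
    -- the two classes
    set P : ℕ → List ℕ → Prop := fun i w => X / 2 < 2 ^ i * |(f w : ℝ)| ∧ 2 ^ i * |(f w : ℝ)| ≤ X
      with hP
    have hcov : ∀ w ∈ S, ∃ i ∈ Finset.range 2, P i w := by
      intro w hw
      obtain ⟨h1, h2⟩ := hsize w hw
      by_cases h3 : X / 2 < |(f w : ℝ)|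
      · exact ⟨0, by simp, by simp only [hP, pow_zero, one_mul]; exact ⟨h3, h2⟩⟩
      · push Not at h3
        refine ⟨1, by simp, ?_⟩
        simp only [hP, pow_one]
        constructor <;> linarith
    obtain ⟨i, hi, hcard⟩ : ∃ i ∈ Finset.range 2, (S.card : ℝ) / 2 ≤ ((S.filter (P i)).card : ℝ) := by
      by_contra hcon
      push Not at hcon
      have h1 : S ⊆ (Finset.range 2).biUnion fun i => S.filter (P i) := by
        intro w hw
        obtain ⟨i, hi, h⟩ := hcov w hw
        exact Finset.mem_biUnion.2 ⟨i, hi, Finset.mem_filter.2 ⟨hw, h⟩⟩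
      have h2 := (Finset.card_le_card h1).trans Finset.card_biUnion_le
      have h3 : (S.card : ℝ) ≤ ∑ i ∈ Finset.range 2, ((S.filter (P i)).card : ℝ) := by
        exact_mod_cast h2
      rw [Finset.sum_range_succ, Finset.sum_range_succ, Finset.sum_range_zero] at h3
      have h4 := hcon 0 (by simp)
      have h5 := hcon 1 (by simp)
      linarith
    have hi2 : i ≤ 1 := by
      have := Finset.mem_range.1 hi
      omega
    refine ⟨(S.filter (P i)).image (fun w => 2 ^ i * f w), ?_, ?_⟩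
    · intro z hz
      obtain ⟨w, hw, rfl⟩ := Finset.mem_image.1 hz
      obtain ⟨hwS, hwP⟩ := Finset.mem_filter.1 hw
      have e : |((2 ^ i * f w : ℤ) : ℝ)| = 2 ^ i * |(f w : ℝ)| := by
        push_cast
        rw [abs_mul, abs_of_pos (by positivity : (0 : ℝ) < 2 ^ i)]
      refine ⟨by rw [e]; exact hwP.1, by rw [e]; exact hwP.2, ?_, j + (w.sum + i), ?_, ?_⟩
      · have e2 : 2 ^ i * f w * a = 2 ^ i * (f w * a) := by ring
        rw [e2]
        exact mul_pos (by positivity) (hfs w hwS)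
      · have h6 := (hS w hwS).2.2.2.2.2
        have h7 : Real.log Y ≤ (J + 1) + Real.log (X / α) := by
          have h8 : Y ≤ 2 ^ (J + 1) * (X / α) := by
            rw [hY, div_le_iff₀ hbR0]
            have h9 : X = X / α * α := by field_simp
            have h10 : X / α * α ≤ X / α * (2 ^ (J + 1) * β) :=
              mul_le_mul_of_nonneg_left habR (by linarith)
            calc 4 / 5 * X ≤ X := by linarith
              _ = X / α * α := h9
              _ ≤ X / α * (2 ^ (J + 1) * β) := h10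
              _ = _ := by ring
          have h9 := Real.log_le_log hY0 h8
          rw [Real.log_mul (by positivity) (by positivity), Real.log_pow] at h9
          have h10 : Real.log 2 ≤ 1 := by
            have := Real.log_two_lt_d9
            linarith
          push_cast at h9
          nlinarith
        have h8 : (j : ℝ) ≤ J := by exact_mod_cast hjJ
        have h9 : (i : ℝ) ≤ 1 := by exact_mod_cast hi2
        rw [Nat.cast_add, Nat.cast_add]
        nlinarith [mul_nonneg hJR hlog]
      · rw [Function.iterate_add_apply, Function.iterate_add_apply, TK_halves, hreach w hwS, hbj]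
    · rw [Finset.card_image_of_injOn]
      · refine le_trans ?_ hcard
        have h1 : Y / 128 ≤ (S.card : ℝ) / 2 := by linarith
        refine le_trans ?_ h1
        rw [div_mul_eq_mul_div, one_mul, div_div, div_le_div_iff₀ (by positivity) (by norm_num)]
        have h2 : Y * (160 * K * 2 ^ J * α) = (Y * β) * (160 * K * (2 ^ J * α / β)) := by
          field_simp
        rw [h2, hYb]
        have h3 : 1 ≤ 2 ^ J * α / β := by rw [le_div_iff₀ hbR0]; linarith
        have h4 : 1 ≤ K * (2 ^ J * α / β) := one_le_mul_of_one_le_of_one_le hK1 h3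
        nlinarith
      · intro w hw w' hw' he
        have hw1 := (Finset.mem_filter.1 (Finset.mem_coe.1 hw)).1
        have hw2 := (Finset.mem_filter.1 (Finset.mem_coe.1 hw')).1
        apply hinj w hw1 w' hw2
        have h1 : (2 : ℤ) ^ i * f w = 2 ^ i * f w' := he
        exact mul_left_cancel₀ (by positivity) h1

/-- the theorem for all roots -/
theorem mainKall : ∃ c C : ℝ, 0 < c ∧ 0 < C ∧ ∀ k a : ℤ, k % 2 = 1 → ¬ (3 : ℤ) ∣ k →
    ¬ (3 : ℤ) ∣ a → ∀ X : ℝ, |(a : ℝ)| ≤ X → |(k : ℝ)| ≤ X →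
    ∃ S : Finset ℤ, (∀ z ∈ S, X / 2 < |(z : ℝ)| ∧ |(z : ℝ)| ≤ X ∧ 0 < z * a ∧
      ∃ j : ℕ, (j : ℝ) ≤ C * (1 + Real.log (X / |(a : ℝ)|)) ∧ (TK k)^[j] z = a) ∧
      c * X / max |(a : ℝ)| |(k : ℝ)| ≤ S.card := by
  obtain ⟨c, C, hc, hC, h⟩ := mainK
  refine ⟨min (c / 2) (1 / 2), C + 2, by positivity, by positivity, ?_⟩
  intro k a hk hk3 ha X haX hkX
  have hk0 : k ≠ 0 := by rintro rfl; simp at hk
  have ha0 : a ≠ 0 := by rintro rfl; exact ha (dvd_zero _)
  have haZ : (1 : ℤ) ≤ |a| := Int.one_le_abs ha0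
  have haR : (1 : ℝ) ≤ |(a : ℝ)| := by exact_mod_cast haZ
  set α : ℝ := |(a : ℝ)| with hα
  have haR0 : (0 : ℝ) < α := by linarith
  have hX0 : 0 < X := by linarith
  have hXa : 1 ≤ X / α := by rw [le_div_iff₀ haR0]; linarith
  have hlog : 0 ≤ Real.log (X / α) := Real.log_nonneg hXa
  have hmx : 0 < max α |(k : ℝ)| := lt_max_of_lt_left haR0
  rcases le_or_gt |(k : ℝ)| α with hle | hgt
  · have hle' : |k| ≤ |a| := by
      rw [hα] at hle
      exact_mod_cast hle
    obtain ⟨S, hS, hcard⟩ := h k a hk hk3 ha hle' X haX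
    refine ⟨S, fun z hz => ?_, ?_⟩
    · obtain ⟨h1, h2, h3, j, h4, h5⟩ := hS z hz
      refine ⟨h1, h2, h3, j, h4.trans ?_, h5⟩
      nlinarith
    · refine le_trans ?_ hcard
      rw [max_eq_left hle]
      apply div_le_div_of_nonneg_right _ haR0.le
      apply mul_le_mul_of_nonneg_right _ hX0.le
      exact (min_le_left _ _).trans (by linarith)
  · -- double the root until it is as large as `k`
    obtain ⟨n, h1, h2⟩ := exists_nat_pow_near (show 1 ≤ |(k : ℝ)| / α by
      rw [le_div_iff₀ haR0]; linarith) (by norm_num : (1 : ℝ) < 2)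
    rw [le_div_iff₀ haR0] at h1
    rw [div_lt_iff₀ haR0] at h2
    set a' : ℤ := 2 ^ (n + 1) * a with ha'
    have ha'3 : ¬ (3 : ℤ) ∣ a' := by
      intro h
      have hc : IsCoprime (3 : ℤ) (2 ^ (n + 1)) := IsCoprime.pow_right (by norm_num)
      exact ha (hc.dvd_of_dvd_mul_left h)
    have ha'abs : |(a' : ℝ)| = 2 ^ (n + 1) * α := by
      rw [ha']
      push_cast
      rw [abs_mul, abs_of_pos (by positivity : (0 : ℝ) < 2 ^ (n + 1))]
    have hka' : |(k : ℝ)| ≤ |(a' : ℝ)| := by rw [ha'abs]; exact h2.le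
    have hka'Z : |k| ≤ |a'| := by exact_mod_cast hka'
    have ha'le : |(a' : ℝ)| ≤ 2 * |(k : ℝ)| := by
      rw [ha'abs, pow_succ]; linarith
    have hn : (n : ℝ) + 1 ≤ 2 * (1 + Real.log (X / α)) := by
      have h3 : (2 : ℝ) ^ n ≤ X / α := by rw [le_div_iff₀ haR0]; linarith
      have h4 := Real.log_le_log (by positivity) h3
      rw [Real.log_pow] at h4
      have h5 := Real.log_two_gt_d9
      have hi0 : (0 : ℝ) ≤ n := by positivity
      nlinarith
    rcases le_or_gt |(a' : ℝ)| X with hbig | hsm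
    · obtain ⟨S, hS, hcard⟩ := h k a' hk hk3 ha'3 hka'Z X hbig
      refine ⟨S, fun z hz => ?_, ?_⟩
      · obtain ⟨h3, h4, h5, j, h6, h7⟩ := hS z hz
        have ha'0 : 0 < |(a' : ℝ)| := by rw [ha'abs]; positivity
        refine ⟨h3, h4, ?_, (n + 1) + j, ?_, ?_⟩
        · have e : z * a' = 2 ^ (n + 1) * (z * a) := by rw [ha']; ring
          rw [e] at h5
          exact (mul_pos_iff_of_pos_left (by positivity)).1 h5
        · have h8 : Real.log (X / |(a' : ℝ)|) ≤ Real.log (X / α) := by
            apply Real.log_le_log (by positivity)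
            apply div_le_div_of_nonneg_left hX0.le haR0
            rw [ha'abs]
            have : (1 : ℝ) ≤ 2 ^ (n + 1) := one_le_pow₀ (by norm_num)
            nlinarith
          push_cast
          have h9 : C * (1 + Real.log (X / |(a' : ℝ)|)) ≤ C * (1 + Real.log (X / α)) :=
            mul_le_mul_of_nonneg_left (by linarith) hC.le
          linarith
        · rw [Function.iterate_add_apply, h7, ha', TK_halves]
      · refine le_trans ?_ hcard
        rw [max_eq_right hgt.le]
        have ha'0 : 0 < |(a' : ℝ)| := by rw [ha'abs]; positivity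
        have hkp : 0 < |(k : ℝ)| := by linarith
        rw [div_le_div_iff₀ hkp ha'0]
        have h3 : min (c / 2) (1 / 2) ≤ c / 2 := min_le_left _ _
        have h4 : min (c / 2) (1 / 2) * X * |(a' : ℝ)| ≤ c / 2 * X * (2 * |(k : ℝ)|) := by
          apply mul_le_mul _ ha'le ha'0.le (by positivity)
          exact mul_le_mul_of_nonneg_right h3 hX0.le
        linarith
    · -- `X < |a'| ≤ 2 |k|`: one power of two times `a`
      obtain ⟨i, hi1, hi2⟩ : ∃ i : ℕ, X / 2 < 2 ^ i * α ∧ 2 ^ i * α ≤ X := by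
        obtain ⟨n, h1, h2⟩ := exists_nat_pow_near hXa (by norm_num : (1 : ℝ) < 2)
        refine ⟨n, ?_, ?_⟩
        · rw [div_lt_iff₀ haR0, pow_succ] at h2
          linarith
        · rw [le_div_iff₀ haR0] at h1
          exact h1
      refine ⟨{2 ^ i * a}, ?_, ?_⟩
      · intro z hz
        rw [Finset.mem_singleton] at hz
        subst hz
        have e : |((2 ^ i * a : ℤ) : ℝ)| = 2 ^ i * α := by
          push_cast
          rw [abs_mul, abs_of_pos (by positivity : (0 : ℝ) < 2 ^ i)]
        refine ⟨by rw [e]; exact hi1, by rw [e]; exact hi2, ?_, i, ?_, TK_halves k i a⟩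
        · have e2 : 2 ^ i * a * a = 2 ^ i * (a * a) := by ring
          rw [e2]
          have : 0 < a * a := mul_self_pos.2 ha0
          positivity
        · have h1 : (2 : ℝ) ^ i ≤ X / α := by rw [le_div_iff₀ haR0]; exact hi2
          have h2 := Real.log_le_log (by positivity) h1
          rw [Real.log_pow] at h2
          have h3 := Real.log_two_gt_d9
          have hi0 : (0 : ℝ) ≤ i := by positivity
          have h4 : (i : ℝ) ≤ 2 * Real.log (X / α) := by nlinarith
          nlinarith [mul_nonneg hC.le hlog]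
      · rw [Finset.card_singleton, max_eq_right hgt.le]
        have hkp : 0 < |(k : ℝ)| := by linarith
        rw [div_le_iff₀ hkp]
        push_cast
        have h3 : min (c / 2) (1 / 2) ≤ 1 / 2 := min_le_right _ _
        have h4 : min (c / 2) (1 / 2) * X ≤ 1 / 2 * X := mul_le_mul_of_nonneg_right h3 hX0.le
        linarith

end Pool.Agent.W36.PDU
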