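import Pool.Agent.W36.US
import Pool.Agent.H828R3.GP.Main
import Pool.Agent.H319R2.GUnif

/-! First passage multiplicities of `H828R3.GP.Pass` for the offsets `κ r`, at the scales `|κ| d^i`,
with constants that do not depend on `κ`. -/

set_option autoImplicit false

namespace Pool.Agent.W36

open Finset Pool.Agent.H319R3.GC Pool.Agent.H828R3.GP

variable {d : ℕ} {m r : ℕ → ℤ}

/-- first passage below `|κ| d ^ i` after exactly `n` steps -/
def FPU (κ : ℤ) (d : ℕ) (m r : ℕ → ℤ) (i n : ℕ) (x : ℤ) : Prop :=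
  (∀ j < n, |(κ : ℝ)| * (d : ℝ) ^ i ≤ |(((Tm d m (kr κ r))^[j] x : ℤ) : ℝ)|) ∧
    |(((Tm d m (kr κ r))^[n] x : ℤ) : ℝ)| < |(κ : ℝ)| * (d : ℝ) ^ i

theorem Mu_eq (r' : ℕ → ℤ) (n : ℕ) : ∀ x : ℤ, Mu d m r' n x = Mw m (wd d m r' n x) := by
  induction n with
  | zero => intro x; simp [Mu, wd, Mw]
  | succ n ih =>
    intro x
    have h1 := ih (Tm d m r' x)
    unfold Mu at h1 ⊢
    rw [prod_range_succ']
    simp only [Function.iterate_succ_apply, Function.iterate_zero, id]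
    rw [h1]
    simp [wd, Mw, mul_comm]

/-- the offset of an orbit segment is a multiple of `κ` -/
theorem dvd_offset {κ : ℤ} (h : Adm d m (kr κ r)) (n : ℕ) (x : ℤ) :
    κ ∣ Mu d m (kr κ r) n x * x - (d : ℤ) ^ n * (Tm d m (kr κ r))^[n] x := by
  rw [iter_eq h n x, Mu_eq, Ww_kr]
  exact ⟨Ww d m r (wd d m (kr κ r) n x), by ring⟩

theorem cop_Mu {κ : ℤ} (hd : 2 ≤ d) (hκc : Nat.Coprime κ.natAbs (PP d m)) (r' : ℕ → ℤ) (n : ℕ) (x : ℤ) :
    IsCoprime κ (Mu d m r' n x) := by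
  rw [Int.isCoprime_iff_nat_coprime, Mu_eq]
  exact Nat.Coprime.coprime_dvd_right (natAbs_Mw_dvd (wd_mem hd n x)) (hκc.pow_right n)

theorem kr_bound {κ : ℤ} {R : ℝ} (hR : ∀ i < d, |(r i : ℝ)| ≤ R) :
    ∀ i < d, |((kr κ r i : ℤ) : ℝ)| ≤ |(κ : ℝ)| * R := by
  intro i hi
  unfold kr
  push_cast
  rw [abs_mul]
  exact mul_le_mul_of_nonneg_left (hR i hi) (abs_nonneg _)

theorem fiberU {κ : ℤ} (hκ0 : κ ≠ 0) (hκc : Nat.Coprime κ.natAbs (PP d m)) (h : Adm d m (kr κ r))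
    {R : ℝ} (hR : ∀ i < d, |(r i : ℝ)| ≤ R) (hR0 : 0 ≤ R) {k i n : ℕ}
    (hi : 1 ≤ i) (hik : i ≤ k) (hn : 4 * n * R ≤ (d : ℝ) ^ i) (S : Finset ℤ) {q : ℕ} (hq : 0 < q)
    (hqκ : Nat.Coprime κ.natAbs q) (c M y : ℤ)
    (hS : ∀ x ∈ S, |(x : ℝ)| < |(κ : ℝ)| * (d : ℝ) ^ k ∧ (q : ℤ) ∣ x - c ∧ FPU κ d m r i n x ∧
      (Tm d m (kr κ r))^[n] x = y ∧ Mu d m (kr κ r) n x = M)
    (hy : |(κ : ℝ)| * (d : ℝ) ^ (i - 1) ≤ |(y : ℝ)|) :
    (S.card : ℝ) ≤ 8 * n * R * (d : ℝ) ^ (k - i + 1) / q + 1 := by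
  have hd0 : (0 : ℝ) < d := by exact_mod_cast (by have := h.two_le; omega : 0 < d)
  have hκp : 0 < |(κ : ℝ)| := abs_pos.2 (by exact_mod_cast hκ0)
  have hnn : (0 : ℝ) ≤ n := Nat.cast_nonneg n
  have hDi : 0 < (d : ℝ) ^ i := by positivity
  set Y : ℝ := |(κ : ℝ)| * (d : ℝ) ^ i with hYdef
  have hY : 0 < Y := by positivity
  have hD : 0 < (d : ℝ) ^ n := by positivity
  set R' : ℝ := |(κ : ℝ)| * R with hR'
  have hR'0 : 0 ≤ R' := by positivity
  have hnY : 4 * n * R' ≤ Y := by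
    have := mul_le_mul_of_nonneg_left hn hκp.le
    calc 4 * n * R' = |(κ : ℝ)| * (4 * n * R) := by rw [hR']; ring
      _ ≤ Y := this
  have key : ∀ x ∈ S, |(M : ℝ) * x - (d : ℝ) ^ n * y| ≤ 2 * n * R' * (d : ℝ) ^ n ∧
      (d : ℝ) ^ n ≤ 2 * |(M : ℝ)| * (d : ℝ) ^ (k - i + 1) := by
    intro x hx
    obtain ⟨h1, h2, h3, h4, h5⟩ := hS x hx
    have h6 := approx h (kr_bound hR) hR'0 hY n h3.1 (by nlinarith)
    have h7 := h3.2
    rw [h4] at h6 h7
    rw [h5] at h6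
    constructor
    · refine h6.trans ?_
      calc n * (2 * R' / Y) * ((d : ℝ) ^ n * |(y : ℝ)|)
          ≤ n * (2 * R' / Y) * ((d : ℝ) ^ n * Y) := by
            apply mul_le_mul_of_nonneg_left _ (by positivity)
            exact mul_le_mul_of_nonneg_left h7.le hD.le
        _ = _ := by field_simp
    · have h8 : n * (2 * R' / Y) ≤ 1 / 2 := by
        rw [mul_div_assoc', div_le_iff₀ hY]; linarith
      have h9 : |(M : ℝ) * x - (d : ℝ) ^ n * y| ≤ 1 / 2 * ((d : ℝ) ^ n * |(y : ℝ)|) :=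
        h6.trans (mul_le_mul_of_nonneg_right h8 (by positivity))
      have h10 : (d : ℝ) ^ n * |(y : ℝ)| ≤ 2 * (|(M : ℝ)| * |(x : ℝ)|) := by
        have e1 : (d : ℝ) ^ n * |(y : ℝ)| = |(d : ℝ) ^ n * y| := by rw [abs_mul, abs_of_pos hD]
        have e2 := abs_sub_abs_le_abs_sub ((d : ℝ) ^ n * y) ((M : ℝ) * x)
        rw [abs_sub_comm, ← e1, abs_mul (M : ℝ)] at e2
        linarith
      have h11 : |(κ : ℝ)| * ((d : ℝ) ^ n * (d : ℝ) ^ (i - 1)) ≤
          |(κ : ℝ)| * (2 * |(M : ℝ)| * (d : ℝ) ^ k) := by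
        calc |(κ : ℝ)| * ((d : ℝ) ^ n * (d : ℝ) ^ (i - 1)) =
              (d : ℝ) ^ n * (|(κ : ℝ)| * (d : ℝ) ^ (i - 1)) := by ring
          _ ≤ (d : ℝ) ^ n * |(y : ℝ)| := mul_le_mul_of_nonneg_left hy hD.le
          _ ≤ 2 * (|(M : ℝ)| * |(x : ℝ)|) := h10
          _ ≤ 2 * (|(M : ℝ)| * (|(κ : ℝ)| * (d : ℝ) ^ k)) := by
              apply mul_le_mul_of_nonneg_left _ (by norm_num)
              exact mul_le_mul_of_nonneg_left h1.le (abs_nonneg _)
          _ = _ := by ring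
      have h11' := le_of_mul_le_mul_left h11 hκp
      have h12 : (d : ℝ) ^ k = (d : ℝ) ^ (k - i + 1) * (d : ℝ) ^ (i - 1) := by
        rw [← pow_add]; congr 1; omega
      rw [h12, ← mul_assoc] at h11'
      exact le_of_mul_le_mul_right h11' (by positivity)
  rcases S.eq_empty_or_nonempty with h0 | ⟨z0, hz0⟩
  · rw [h0, card_empty, Nat.cast_zero]
    have : (0 : ℝ) < q := by exact_mod_cast hq
    positivity
  have hκn : 0 < κ.natAbs := Int.natAbs_pos.2 hκ0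
  have hcard := card_ap S (κ.natAbs * q) (Nat.mul_pos hκn hq) z0
    (8 * n * R' * (d : ℝ) ^ (k - i + 1)) (by positivity) (by
      intro x hx
      obtain ⟨-, a2, -, a4, a5⟩ := hS x hx
      obtain ⟨-, b2, -, b4, b5⟩ := hS z0 hz0
      have hq1 : (q : ℤ) ∣ x - z0 := by
        have := dvd_sub a2 b2
        rwa [sub_sub_sub_cancel_right] at this
      have hk1 : κ ∣ x - z0 := by
        have c1 := dvd_offset h n x
        have c2 := dvd_offset h n z0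
        rw [a4, a5] at c1
        rw [b4, b5] at c2
        have c3 := dvd_sub c1 c2
        have c4 : M * x - (d : ℤ) ^ n * y - (M * z0 - (d : ℤ) ^ n * y) = M * (x - z0) := by ring
        rw [c4] at c3
        have c5 : IsCoprime κ M := by
          rw [← a5]; exact cop_Mu h.two_le hκc _ n x
        exact c5.dvd_of_dvd_mul_left c3
      have hcop : IsCoprime (κ.natAbs : ℤ) (q : ℤ) := by
        rw [Int.isCoprime_iff_nat_coprime, Int.natAbs_natCast, Int.natAbs_natCast]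
        exact hqκ
      have hk2 : ((κ.natAbs : ℕ) : ℤ) ∣ x - z0 := by
        rwa [Int.natCast_natAbs, abs_dvd]
      push_cast
      push_cast at hcop hk2
      exact hcop.mul_dvd hk2 hq1) (by
      intro x hx z hz
      obtain ⟨a1, a2⟩ := key x hx
      obtain ⟨b1, b2⟩ := key z hz
      have hM0 : 0 < |(M : ℝ)| := by
        by_contra hcon
        push Not at hcon
        have : |(M : ℝ)| = 0 := le_antisymm hcon (abs_nonneg _)
        rw [this, mul_zero, zero_mul] at a2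
        linarith
      have h3 : |(M : ℝ)| * |(x : ℝ) - z| ≤ 4 * n * R' * (d : ℝ) ^ n := by
        rw [← abs_mul]
        have : (M : ℝ) * ((x : ℝ) - z) =
            ((M : ℝ) * x - (d : ℝ) ^ n * y) - ((M : ℝ) * z - (d : ℝ) ^ n * y) := by
          ring
        rw [this]
        refine (abs_sub _ _).trans ?_
        linarith
      have h4 : |(M : ℝ)| * |(x : ℝ) - z| ≤ |(M : ℝ)| * (8 * n * R' * (d : ℝ) ^ (k - i + 1)) := by
        refine h3.trans ?_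
        calc 4 * n * R' * (d : ℝ) ^ n ≤ 4 * n * R' * (2 * |(M : ℝ)| * (d : ℝ) ^ (k - i + 1)) :=
              mul_le_mul_of_nonneg_left a2 (by positivity)
          _ = _ := by ring
      have h5 := le_of_mul_le_mul_left h4 hM0
      push_cast
      exact (le_abs_self _).trans h5)
  refine hcard.trans (le_of_eq ?_)
  have hqR : (0 : ℝ) < q := by exact_mod_cast hq
  have e : (κ.natAbs : ℝ) = |(κ : ℝ)| := by rw [Nat.cast_natAbs, Int.cast_abs]
  push_cast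
  rw [e, hR']
  field_simp

open Classical in
/-- the points of `(-|κ| d^k, |κ| d^k)` in the class of `c` mod `q` whose first passage below
`|κ| d^i` is in `B` -/
noncomputable def PaU (κ : ℤ) (d : ℕ) (m r : ℕ → ℤ) (k i N q : ℕ) (c : ℤ) (B : Finset ℤ) : Finset ℤ :=
  (Icc (-(|κ| * (d : ℤ) ^ k)) (|κ| * (d : ℤ) ^ k)).filter (fun x => |(x : ℝ)| < |(κ : ℝ)| * (d : ℝ) ^ k ∧
    (q : ℤ) ∣ x - c ∧ ∃ n ≤ N, FPU κ d m r i n x ∧ (Tm d m (kr κ r))^[n] x ∈ B)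

theorem mem_Icc_of_absU {κ : ℤ} {k : ℕ} {x : ℤ} (hx : |(x : ℝ)| < |(κ : ℝ)| * (d : ℝ) ^ k) :
    x ∈ Icc (-(|κ| * (d : ℤ) ^ k)) (|κ| * (d : ℤ) ^ k) := by
  have h1 : |x| < |κ| * (d : ℤ) ^ k := by exact_mod_cast hx
  rw [abs_lt] at h1
  rw [mem_Icc]
  exact ⟨h1.1.le, h1.2.le⟩

theorem card_PaU {κ : ℤ} (hκ0 : κ ≠ 0) (hκc : Nat.Coprime κ.natAbs (PP d m)) (h : Adm d m (kr κ r))
    {R : ℝ} (hR : ∀ i < d, |(r i : ℝ)| ≤ R) (hR0 : 0 ≤ R) {k i N q : ℕ}
    (hi : 1 ≤ i) (hik : i ≤ k) (hN : 4 * N * R ≤ (d : ℝ) ^ i) (hq : 0 < q)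
    (hqκ : Nat.Coprime κ.natAbs q) (c : ℤ) (B : Finset ℤ)
    (hB : ∀ y ∈ B, |(κ : ℝ)| * (d : ℝ) ^ (i - 1) ≤ |(y : ℝ)|) :
    ((PaU κ d m r k i N q c B).card : ℝ) ≤
      B.card * ((N + 1) * ((N + 1) ^ d * (8 * N * R * (d : ℝ) ^ (k - i + 1) / q + 1))) := by
  classical
  have hqR : (0 : ℝ) < q := by exact_mod_cast hq
  have hd0 : (0 : ℝ) < d := by exact_mod_cast (by have := h.two_le; omega : 0 < d)
  set E : ℝ := 8 * N * R * (d : ℝ) ^ (k - i + 1) / q + 1 with hE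
  have hE0 : 0 ≤ E := by positivity
  set Fi : ℤ → ℕ → ℤ → Finset ℤ := fun y n M => (PaU κ d m r k i N q c B).filter
    (fun x => FPU κ d m r i n x ∧ (Tm d m (kr κ r))^[n] x = y ∧ Mu d m (kr κ r) n x = M) with hFi
  have hsub : PaU κ d m r k i N q c B ⊆ B.biUnion (fun y => (range (N + 1)).biUnion (fun n =>
      (Ms d m n).biUnion (fun M => Fi y n M))) := by
    intro x hx
    have hx' := hx
    unfold PaU at hx'
    rw [mem_filter] at hx'
    obtain ⟨_, _, _, n, hn, hfp, hB'⟩ := hx'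
    rw [mem_biUnion]
    refine ⟨_, hB', ?_⟩
    rw [mem_biUnion]
    refine ⟨n, mem_range.2 (by omega), ?_⟩
    rw [mem_biUnion]
    refine ⟨Mu d m (kr κ r) n x, Mu_mem h.two_le n x, ?_⟩
    rw [hFi]
    exact mem_filter.2 ⟨hx, hfp, rfl, rfl⟩
  have hfib : ∀ y ∈ B, ∀ n ∈ range (N + 1), ∀ M ∈ Ms d m n, ((Fi y n M).card : ℝ) ≤ E := by
    intro y hy n hn M _
    rw [mem_range] at hn
    have hnN : (n : ℝ) ≤ N := by exact_mod_cast (by omega : n ≤ N)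
    have hnn : (0 : ℝ) ≤ n := Nat.cast_nonneg n
    have h1 := fiberU hκ0 hκc h hR hR0 (k := k) (i := i) (n := n) hi hik (by
      refine le_trans ?_ hN
      apply mul_le_mul_of_nonneg_right _ hR0
      linarith) (Fi y n M) hq hqκ c M y (by
      intro x hx
      rw [hFi] at hx
      simp only [mem_filter, PaU] at hx
      obtain ⟨⟨_, h1, h2, _⟩, h3, h4, h5⟩ := hx
      exact ⟨h1, h2, h3, h4, h5⟩) (hB y hy)
    refine h1.trans ?_
    rw [hE]
    have : 8 * (n : ℝ) * R * (d : ℝ) ^ (k - i + 1) / q ≤ 8 * N * R * (d : ℝ) ^ (k - i + 1) / q := by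
      apply div_le_div_of_nonneg_right _ hqR.le
      apply mul_le_mul_of_nonneg_right _ (by positivity)
      apply mul_le_mul_of_nonneg_right _ hR0
      linarith
    linarith
  have h1 : ((PaU κ d m r k i N q c B).card : ℝ) ≤
      ∑ y ∈ B, ∑ n ∈ range (N + 1), ∑ M ∈ Ms d m n, ((Fi y n M).card : ℝ) := by
    have : (PaU κ d m r k i N q c B).card ≤
        ∑ y ∈ B, ∑ n ∈ range (N + 1), ∑ M ∈ Ms d m n, (Fi y n M).card := by
      refine (card_le_card hsub).trans ?_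
      refine card_biUnion_le.trans (sum_le_sum fun y _ => ?_)
      refine card_biUnion_le.trans (sum_le_sum fun n _ => ?_)
      exact card_biUnion_le
    exact_mod_cast this
  refine h1.trans ?_
  have h2 : ∀ y ∈ B, ∑ n ∈ range (N + 1), ∑ M ∈ Ms d m n, ((Fi y n M).card : ℝ) ≤
      (N + 1) * ((N + 1) ^ d * E) := by
    intro y hy
    have h3 : ∀ n ∈ range (N + 1), ∑ M ∈ Ms d m n, ((Fi y n M).card : ℝ) ≤ ((N : ℝ) + 1) ^ d * E := by
      intro n hn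
      refine (sum_le_card_nsmul _ _ E (hfib y hy n hn)).trans ?_
      rw [nsmul_eq_mul]
      apply mul_le_mul_of_nonneg_right _ hE0
      have h4 : ((Ms d m n).card : ℝ) ≤ ((n : ℝ) + 1) ^ d := by exact_mod_cast card_Ms (d := d) (m := m) n
      refine h4.trans ?_
      rw [mem_range] at hn
      have hnN : (n : ℝ) ≤ N := by exact_mod_cast (by omega : n ≤ N)
      exact pow_le_pow_left₀ (by positivity) (by linarith) d
    refine (sum_le_card_nsmul _ _ _ h3).trans ?_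
    rw [card_range, nsmul_eq_mul]
    push_cast
    exact le_refl _
  refine (sum_le_card_nsmul _ _ _ h2).trans ?_
  rw [nsmul_eq_mul]

open Classical in
/-- the points that may fail to pass below `|κ| d^(i-1)` -/
noncomputable def StU (κ : ℤ) (d : ℕ) (m r : ℕ → ℤ) (i : ℕ) : Finset ℤ :=
  (Icc (-(|κ| * (d : ℤ) ^ i)) (|κ| * (d : ℤ) ^ i)).filter (fun y =>
    |(κ : ℝ)| * (d : ℝ) ^ (i - 1) ≤ |(y : ℝ)| ∧ (d : ℝ) ^ i < 2 * d * |(Mu d m (kr κ r) i y : ℝ)|)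

theorem card_StU {κ : ℤ} (hκ0 : κ ≠ 0) (h : Adm d m (kr κ r)) {s : ℝ} (hs : 0 ≤ s) (i : ℕ) :
    ((StU κ d m r i).card : ℝ) ≤
      3 * |(κ : ℝ)| * (2 * d) ^ s * (∑ j ∈ range d, (|(m j : ℝ)| / d) ^ s) ^ i := by
  classical
  have hd0 : (0 : ℝ) < d := by exact_mod_cast (by have := h.two_le; omega : 0 < d)
  have e0 : (κ.natAbs : ℤ) = |κ| := Int.natCast_natAbs κ
  have h1 := (gc h).card_large' κ.natAbs (Int.natAbs_pos.2 hκ0) i (1 / (2 * d)) s (by positivity) hs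
    (StU κ d m r i) (by
    intro x hx
    unfold StU at hx
    rw [mem_filter, mem_Icc] at hx
    obtain ⟨⟨h1, h2⟩, h3, h4⟩ := hx
    refine ⟨by rw [e0]; exact abs_le.2 ⟨h1, h2⟩, ?_⟩
    rw [gc_prod, div_lt_div_iff₀ (by positivity) (by positivity), one_mul]
    linarith)
  have e1 : (1 / (1 / (2 * (d : ℝ)))) = 2 * d := by field_simp
  have e : (κ.natAbs : ℝ) = |(κ : ℝ)| := by rw [Nat.cast_natAbs, Int.cast_abs]
  rw [e1, e] at h1
  refine h1.trans (le_of_eq ?_)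
  rfl

/-- outside of the stuck set the orbit passes below `|κ| d^(i-1)` -/
theorem pass_nextU {κ : ℤ} (hκ0 : κ ≠ 0) (h : Adm d m (kr κ r)) {R : ℝ}
    (hR : ∀ i < d, |(r i : ℝ)| ≤ R) (hR0 : 0 ≤ R) {i : ℕ}
    (hi : 1 ≤ i) (hiR : 4 * i * R ≤ (d : ℝ) ^ (i - 1)) {y : ℤ}
    (hy : |(y : ℝ)| < |(κ : ℝ)| * (d : ℝ) ^ i)
    (hns : y ∉ StU κ d m r i) :
    ∃ j ≤ i, |(((Tm d m (kr κ r))^[j] y : ℤ) : ℝ)| < |(κ : ℝ)| * (d : ℝ) ^ (i - 1) := by
  by_contra hcon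
  push Not at hcon
  have hκp : 0 < |(κ : ℝ)| := abs_pos.2 (by exact_mod_cast hκ0)
  have hd0 : (0 : ℝ) < d := by exact_mod_cast (by have := h.two_le; omega : 0 < d)
  have hYi : 0 < (d : ℝ) ^ (i - 1) := by positivity
  set Y : ℝ := |(κ : ℝ)| * (d : ℝ) ^ (i - 1) with hYdef
  have hY : 0 < Y := by positivity
  have hD : 0 < (d : ℝ) ^ i := by positivity
  have hii : (0 : ℝ) ≤ i := Nat.cast_nonneg i
  set R' : ℝ := |(κ : ℝ)| * R with hR'
  have hR'0 : 0 ≤ R' := by positivity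
  have hnY : 4 * i * R' ≤ Y := by
    have := mul_le_mul_of_nonneg_left hiR hκp.le
    calc 4 * i * R' = |(κ : ℝ)| * (4 * i * R) := by rw [hR']; ring
      _ ≤ Y := this
  apply hns
  unfold StU
  rw [mem_filter]
  refine ⟨mem_Icc_of_absU hy, ?_, ?_⟩
  · simpa using hcon 0 (by omega)
  · have h6 := approx h (kr_bound hR) hR'0 hY i (x := y) (fun j hj => hcon j hj.le) (by nlinarith)
    set z : ℝ := (((Tm d m (kr κ r))^[i] y : ℤ) : ℝ) with hz
    set M : ℝ := (Mu d m (kr κ r) i y : ℝ) with hM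
    have h8 : i * (2 * R' / Y) ≤ 1 / 2 := by
      rw [mul_div_assoc', div_le_iff₀ hY]; linarith
    have h9 : |M * y - (d : ℝ) ^ i * z| ≤ 1 / 2 * ((d : ℝ) ^ i * |z|) :=
      h6.trans (mul_le_mul_of_nonneg_right h8 (by positivity))
    have h10 : (d : ℝ) ^ i * |z| ≤ 2 * (|M| * |(y : ℝ)|) := by
      have e1 : (d : ℝ) ^ i * |z| = |(d : ℝ) ^ i * z| := by rw [abs_mul, abs_of_pos hD]
      have e2 := abs_sub_abs_le_abs_sub ((d : ℝ) ^ i * z) (M * y)
      rw [abs_sub_comm, ← e1, abs_mul M] at e2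
      linarith
    have h11 : Y ≤ |z| := hcon i le_rfl
    have h12 : (d : ℝ) ^ i * Y ≤ 2 * (|M| * |(y : ℝ)|) :=
      (mul_le_mul_of_nonneg_left h11 hD.le).trans h10
    have hM0 : 0 < |M| := by
      by_contra hc
      push Not at hc
      have : |M| = 0 := le_antisymm hc (abs_nonneg _)
      rw [this, zero_mul, mul_zero] at h12
      have : 0 < (d : ℝ) ^ i * Y := by positivity
      linarith
    have h13 : |(κ : ℝ)| * (d : ℝ) ^ i * (d : ℝ) ^ (i - 1) < |(κ : ℝ)| * (d : ℝ) ^ i * (2 * |M|) := by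
      calc |(κ : ℝ)| * (d : ℝ) ^ i * (d : ℝ) ^ (i - 1) = (d : ℝ) ^ i * Y := by rw [hYdef]; ring
        _ ≤ 2 * (|M| * |(y : ℝ)|) := h12
        _ < 2 * (|M| * (|(κ : ℝ)| * (d : ℝ) ^ i)) := by
            apply mul_lt_mul_of_pos_left _ (by norm_num)
            exact mul_lt_mul_of_pos_left hy hM0
        _ = _ := by ring
    have h14 : (d : ℝ) ^ (i - 1) < 2 * |M| := lt_of_mul_lt_mul_left h13 (by positivity)
    have e : (d : ℝ) ^ i = d * (d : ℝ) ^ (i - 1) := by rw [← pow_succ']; congr 1; omega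
    rw [e]
    calc (d : ℝ) * (d : ℝ) ^ (i - 1) < d * (2 * |M|) := mul_lt_mul_of_pos_left h14 hd0
      _ = _ := by ring

theorem fp_stepU {κ : ℤ} (hκ0 : κ ≠ 0) (h : Adm d m (kr κ r)) {R : ℝ}
    (hR : ∀ i < d, |(r i : ℝ)| ≤ R) (hR0 : 0 ≤ R) {i n : ℕ}
    (hi : 1 ≤ i) (hiR : 4 * i * R ≤ (d : ℝ) ^ (i - 1)) {x : ℤ} (hfp : FPU κ d m r i n x)
    (hns : (Tm d m (kr κ r))^[n] x ∉ StU κ d m r i) : ∃ n' ≤ n + i, FPU κ d m r (i - 1) n' x := by
  classical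
  have hκp : 0 < |(κ : ℝ)| := abs_pos.2 (by exact_mod_cast hκ0)
  have hd1 : (1 : ℝ) ≤ d := by exact_mod_cast (by have := h.two_le; omega : 1 ≤ d)
  have hpow : |(κ : ℝ)| * (d : ℝ) ^ (i - 1) ≤ |(κ : ℝ)| * (d : ℝ) ^ i :=
    mul_le_mul_of_nonneg_left (pow_le_pow_right₀ hd1 (by omega)) hκp.le
  obtain ⟨j, hj, hjl⟩ := pass_nextU hκ0 h hR hR0 hi hiR hfp.2 hns
  have hex : ∃ j, |(((Tm d m (kr κ r))^[j] ((Tm d m (kr κ r))^[n] x) : ℤ) : ℝ)| <
      |(κ : ℝ)| * (d : ℝ) ^ (i - 1) := ⟨j, hjl⟩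
  refine ⟨n + Nat.find hex, Nat.add_le_add_left ((Nat.find_min' hex hjl).trans hj) _, ?_, ?_⟩
  · intro t ht
    rcases Nat.lt_or_ge t n with h3 | h3
    · exact hpow.trans (hfp.1 t h3)
    · obtain ⟨u, rfl⟩ := Nat.exists_eq_add_of_le h3
      have := Nat.find_min hex (m := u) (by omega)
      rw [← Function.iterate_add_apply, add_comm, not_lt] at this
      exact this
  · have := Nat.find_spec hex
    rwa [← Function.iterate_add_apply, add_comm] at this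

theorem descendU {κ : ℤ} (hκ0 : κ ≠ 0) (h : Adm d m (kr κ r)) {R : ℝ}
    (hR : ∀ i < d, |(r i : ℝ)| ≤ R) (hR0 : 0 ≤ R) {k l : ℕ}
    (hl : 4 * k * R ≤ (d : ℝ) ^ l) {x : ℤ} (hxk : |(x : ℝ)| < |(κ : ℝ)| * (d : ℝ) ^ k)
    (hbad : ∀ i, l < i → i ≤ k → ∀ n ≤ k * k, FPU κ d m r i n x →
      (Tm d m (kr κ r))^[n] x ∉ StU κ d m r i) :
    ∀ e, l + e ≤ k → ∃ n ≤ e * k, FPU κ d m r (k - e) n x := by
  have hd1 : (1 : ℝ) ≤ d := by exact_mod_cast (by have := h.two_le; omega : 1 ≤ d)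
  intro e
  induction e with
  | zero => intro _; exact ⟨0, by simp, by intro j hj; omega, by simpa using hxk⟩
  | succ e ih =>
    intro he
    obtain ⟨n, hn, hfp⟩ := ih (by omega)
    have hnM : n ≤ k * k := hn.trans (Nat.mul_le_mul_right _ (by omega))
    obtain ⟨n', h1, h2⟩ := fp_stepU hκ0 h hR hR0 (i := k - e) (by omega) (by
      have hi : ((k - e : ℕ) : ℝ) ≤ k := by exact_mod_cast Nat.sub_le _ _
      calc 4 * ((k - e : ℕ) : ℝ) * R ≤ 4 * k * R := by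
            apply mul_le_mul_of_nonneg_right _ hR0
            linarith
        _ ≤ (d : ℝ) ^ l := hl
        _ ≤ (d : ℝ) ^ (k - e - 1) := pow_le_pow_right₀ hd1 (by omega)) hfp
      (hbad _ (by omega) (by omega) n hnM hfp)
    refine ⟨n', ?_, by rwa [Nat.sub_sub] at h2⟩
    rw [add_mul, one_mul]
    omega

/-- THE POINTS OF A CLASS THAT STAY ABOVE `|κ| d^l` -/
theorem card_stayU {κ : ℤ} (hκ0 : κ ≠ 0) (hκc : Nat.Coprime κ.natAbs (PP d m)) (h : Adm d m (kr κ r))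
    {R : ℝ} (hR : ∀ i < d, |(r i : ℝ)| ≤ R) (hR0 : 0 ≤ R) {s K : ℝ}
    (hs : 0 ≤ s) (hK1 : 1 ≤ K) (hK : ∑ j ∈ range d, (|(m j : ℝ)| / d) ^ s ≤ K) (hKd : K < d)
    {k l q : ℕ} (hq : 0 < q) (hqκ : Nat.Coprime κ.natAbs q) (c : ℤ) (hk1 : 1 ≤ k) (hlk : l ≤ k)
    (hl : 4 * (k * k) * R ≤ (d : ℝ) ^ l) (S : Finset ℤ)
    (hS : ∀ x ∈ S, |(x : ℝ)| < |(κ : ℝ)| * (d : ℝ) ^ k ∧ (q : ℤ) ∣ x - c ∧
      ∀ n : ℕ, |(κ : ℝ)| * (d : ℝ) ^ l ≤ |(((Tm d m (kr κ r))^[n] x : ℤ) : ℝ)|) :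
    (S.card : ℝ) ≤ |(κ : ℝ)| * (k * (3 * (2 * d) ^ s * ((k * k + 1) ^ (d + 1) *
      (8 * (k * k) * R * d * ((d : ℝ) ^ k * (K / d) ^ l) / q + (d : ℝ) ^ k * (K / d) ^ k)))) := by
  classical
  have hκp : 0 < |(κ : ℝ)| := abs_pos.2 (by exact_mod_cast hκ0)
  have hqR : (0 : ℝ) < q := by exact_mod_cast hq
  have hd1 : (1 : ℝ) ≤ d := by exact_mod_cast (by have := h.two_le; omega : 1 ≤ d)
  have hd0 : (0 : ℝ) < d := by linarith
  have hkR : (1 : ℝ) ≤ k := by exact_mod_cast hk1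
  have hK0 : 0 < K := by linarith
  have hκ1 : K / d ≤ 1 := by rw [div_le_one hd0]; exact hKd.le
  have hκ0' : 0 ≤ K / d := by positivity
  have hsum0 : 0 ≤ ∑ j ∈ range d, (|(m j : ℝ)| / d) ^ s := sum_nonneg fun j _ => by positivity
  have hsub : S ⊆ (Ioc l k).biUnion (fun i => PaU κ d m r k i (k * k) q c (StU κ d m r i)) := by
    intro x hx
    obtain ⟨h1, h2, h3⟩ := hS x hx
    by_contra hcon
    simp only [mem_biUnion, mem_Ioc, not_exists, not_and] at hcon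
    obtain ⟨n, -, hfp⟩ := descendU hκ0 h hR hR0 (k := k) (l := l) (by
      refine le_trans ?_ hl
      apply mul_le_mul_of_nonneg_right _ hR0
      nlinarith) h1 (by
      intro i hi hik n hn hfp hst
      apply hcon i ⟨hi, hik⟩
      unfold PaU
      rw [mem_filter]
      exact ⟨mem_Icc_of_absU h1, h1, h2, n, hn, hfp, hst⟩) (k - l) (by omega)
    have e : k - (k - l) = l := by omega
    rw [e] at hfp
    have h4 := hfp.2
    have h5 := h3 n
    linarith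
  have h1 : (S.card : ℝ) ≤ ∑ i ∈ Ioc l k, ((PaU κ d m r k i (k * k) q c (StU κ d m r i)).card : ℝ) := by
    exact_mod_cast (card_le_card hsub).trans card_biUnion_le
  set W : ℝ := 3 * (2 * d) ^ s * ((k * k + 1) ^ (d + 1) *
      (8 * (k * k) * R * d * ((d : ℝ) ^ k * (K / d) ^ l) / q + (d : ℝ) ^ k * (K / d) ^ k)) with hW
  have hW0 : 0 ≤ W := by positivity
  have h2 : ∀ i ∈ Ioc l k, ((PaU κ d m r k i (k * k) q c (StU κ d m r i)).card : ℝ) ≤
      |(κ : ℝ)| * W := by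
    intro i hi
    rw [mem_Ioc] at hi
    have a1 := card_PaU hκ0 hκc h hR hR0 (k := k) (i := i) (N := k * k) (q := q) (by omega) hi.2 (by
      push_cast
      exact hl.trans (pow_le_pow_right₀ hd1 hi.1.le)) hq hqκ c (StU κ d m r i) (by
      intro y hy
      unfold StU at hy
      rw [mem_filter] at hy
      exact hy.2.1)
    have a2 := card_StU hκ0 h hs i
    have a3 : (∑ j ∈ range d, (|(m j : ℝ)| / d) ^ s) ^ i ≤ K ^ i := pow_le_pow_left₀ hsum0 hK i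
    refine a1.trans ?_
    push_cast
    have a4 : K ^ i ≤ K ^ k := pow_le_pow_right₀ hK1 hi.2
    have a5 : K ^ i * (d : ℝ) ^ (k - i + 1) ≤ d * ((d : ℝ) ^ k * (K / d) ^ l) := by
      have e1 : K ^ i = (d : ℝ) ^ i * (K / d) ^ i := by rw [← mul_pow]; congr 1; field_simp
      have e2 : (K / d) ^ i ≤ (K / d) ^ l := pow_le_pow_of_le_one hκ0' hκ1 hi.1.le
      have e3 : (d : ℝ) ^ i * (d : ℝ) ^ (k - i + 1) = d * (d : ℝ) ^ k := by
        rw [← pow_add, ← pow_succ']; congr 1; omega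
      calc K ^ i * (d : ℝ) ^ (k - i + 1) = ((d : ℝ) ^ i * (d : ℝ) ^ (k - i + 1)) * (K / d) ^ i := by
            rw [e1]; ring
        _ ≤ ((d : ℝ) ^ i * (d : ℝ) ^ (k - i + 1)) * (K / d) ^ l :=
            mul_le_mul_of_nonneg_left e2 (by positivity)
        _ = _ := by rw [e3]; ring
    have a6 : K ^ k = (d : ℝ) ^ k * (K / d) ^ k := by rw [← mul_pow]; congr 1; field_simp
    have a7 : (StU κ d m r i).card * (8 * ((k : ℝ) * k) * R * (d : ℝ) ^ (k - i + 1) / q + 1) ≤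
        |(κ : ℝ)| * (3 * (2 * d) ^ s * (8 * (k * k) * R * d * ((d : ℝ) ^ k * (K / d) ^ l) / q +
          (d : ℝ) ^ k * (K / d) ^ k)) := by
      have b1 : ((StU κ d m r i).card : ℝ) ≤ |(κ : ℝ)| * (3 * (2 * d) ^ s * K ^ i) := by
        refine (a2.trans (mul_le_mul_of_nonneg_left a3 (by positivity))).trans (le_of_eq (by ring))
      refine (mul_le_mul_of_nonneg_right b1 (by positivity)).trans ?_
      rw [mul_assoc |(κ : ℝ)|]
      apply mul_le_mul_of_nonneg_left _ hκp.le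
      rw [mul_assoc (3 * (2 * (d : ℝ)) ^ s)]
      apply mul_le_mul_of_nonneg_left _ (by positivity)
      rw [mul_add, mul_one]
      apply add_le_add
      · calc K ^ i * (8 * ((k : ℝ) * k) * R * (d : ℝ) ^ (k - i + 1) / q)
            = 8 * ((k : ℝ) * k) * R * (K ^ i * (d : ℝ) ^ (k - i + 1)) / q := by ring
          _ ≤ 8 * ((k : ℝ) * k) * R * (d * ((d : ℝ) ^ k * (K / d) ^ l)) / q := by
              apply div_le_div_of_nonneg_right _ hqR.le
              exact mul_le_mul_of_nonneg_left a5 (by positivity)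
          _ = _ := by ring
      · rw [← a6]; exact a4
    calc ((StU κ d m r i).card : ℝ) * ((k * k + 1) * ((k * k + 1) ^ d *
          (8 * (k * k) * R * (d : ℝ) ^ (k - i + 1) / q + 1)))
        = (k * k + 1) ^ (d + 1) * ((StU κ d m r i).card *
          (8 * ((k : ℝ) * k) * R * (d : ℝ) ^ (k - i + 1) / q + 1)) := by ring
      _ ≤ (k * k + 1) ^ (d + 1) * (|(κ : ℝ)| * (3 * (2 * d) ^ s *
          (8 * (k * k) * R * d * ((d : ℝ) ^ k * (K / d) ^ l) / q + (d : ℝ) ^ k * (K / d) ^ k))) :=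
          mul_le_mul_of_nonneg_left a7 (by positivity)
      _ = |(κ : ℝ)| * W := by rw [hW]; ring
  calc (S.card : ℝ) ≤ ∑ i ∈ Ioc l k, ((PaU κ d m r k i (k * k) q c (StU κ d m r i)).card : ℝ) := h1
    _ ≤ (Ioc l k).card • (|(κ : ℝ)| * W) := sum_le_card_nsmul _ _ _ h2
    _ = ((k - l : ℕ) : ℝ) * (|(κ : ℝ)| * W) := by rw [Nat.card_Ioc, nsmul_eq_mul]
    _ ≤ k * (|(κ : ℝ)| * W) := by
        apply mul_le_mul_of_nonneg_right _ (by positivity)
        exact_mod_cast Nat.sub_le _ _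
    _ = |(κ : ℝ)| * (k * W) := by ring

end Pool.Agent.W36
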