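import Pool.Agent.H828R3.GP.Stage

/-! The one stage inequality of `H828R3.GP.Stage` for the offsets `κ r` (`κ` prime to the multipliers) at the
scales `|κ| a`, with constants that do not depend on `κ`. -/

set_option autoImplicit false

namespace Pool.Agent.W36

open Finset Pool.Agent.H319R3.GC Pool.Agent.H828R3.GP

variable {d : ℕ} {m r : ℕ → ℤ}

/-- the offsets `κ r` -/
def kr (κ : ℤ) (r : ℕ → ℤ) : ℕ → ℤ := fun i => κ * r i

theorem Ww_kr (κ : ℤ) (w : List ℕ) : Ww d m (kr κ r) w = κ * Ww d m r w := by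
  induction w with
  | nil => simp [Ww]
  | cons i w ih =>
    simp only [Ww, kr] at ih ⊢
    rw [ih]
    ring

/-- a sum over a complete residue system -/
theorem sum_resid (N : ℕ) (hN : 0 < N) (κ : ℤ) (hκ : Nat.Coprime κ.natAbs N) (f : ℤ → ℝ)
    (hf : ∀ x y : ℤ, (N : ℤ) ∣ x - y → f x = f y) :
    ∑ c ∈ range N, f (c : ℤ) = ∑ c ∈ range N, f (κ * c) := by
  have hNz : (0 : ℤ) < N := by exact_mod_cast hN
  have hcop : IsCoprime κ (N : ℤ) := by
    rw [Int.isCoprime_iff_nat_coprime]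
    simpa using hκ
  set g : ℕ → ℕ := fun c => ((κ * c) % N).toNat with hg
  have hgc : ∀ c : ℕ, ((g c : ℕ) : ℤ) = (κ * c) % N := by
    intro c
    rw [hg]
    exact Int.toNat_of_nonneg (Int.emod_nonneg _ hNz.ne')
  have hmaps : ∀ c ∈ range N, g c ∈ range N := by
    intro c _
    rw [mem_range]
    have h1 : ((g c : ℕ) : ℤ) < N := by rw [hgc]; exact Int.emod_lt_of_pos _ hNz
    exact_mod_cast h1
  have hinj : Set.InjOn g (range N : Finset ℕ) := by
    intro a ha b hb hab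
    rw [mem_coe, mem_range] at ha hb
    have h1 : ((g a : ℕ) : ℤ) = ((g b : ℕ) : ℤ) := by rw [hab]
    rw [hgc, hgc] at h1
    have h2 : (N : ℤ) ∣ κ * a - κ * b := Int.ModEq.dvd (Int.ModEq.symm h1)
    rw [← mul_sub] at h2
    have h3 : (N : ℤ) ∣ (a : ℤ) - b := hcop.symm.dvd_of_dvd_mul_left h2
    obtain ⟨t, ht⟩ := h3
    have h4 : |(a : ℤ) - b| < N := by
      rw [abs_lt]; constructor <;> linarith
    rw [ht, abs_mul, abs_of_pos hNz] at h4
    have h5 : |t| < 1 := by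
      by_contra hcon
      push Not at hcon
      nlinarith
    have h6 : t = 0 := by
      have := Int.abs_lt_one_iff.1 h5
      exact this
    rw [h6, mul_zero] at ht
    have : (a : ℤ) = b := by linarith
    exact_mod_cast this
  have himg : (range N).image g = range N := by
    apply Finset.eq_of_subset_of_card_le
    · intro x hx
      rw [mem_image] at hx
      obtain ⟨c, hc, rfl⟩ := hx
      exact hmaps c hc
    · rw [card_image_of_injOn hinj]
  calc ∑ c ∈ range N, f (c : ℤ) = ∑ c ∈ (range N).image g, f (c : ℤ) := by rw [himg]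
    _ = ∑ c ∈ range N, f ((g c : ℕ) : ℤ) := by rw [sum_image hinj]
    _ = ∑ c ∈ range N, f (κ * c) := by
        apply sum_congr rfl
        intro c _
        apply hf
        rw [hgc]
        exact ⟨-((κ * c) / N), by have := Int.emod_add_mul_ediv (κ * c) N; linarith⟩

/-- the distance to the uniform distribution does not change when all values are multiplied by a
number prime to the modulus -/
theorem tv_kr {s : Finset (List ℕ)} (κ : ℤ) {D N : ℕ} (hN : 0 < N) (hDN : D ∣ N)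
    (hκ : Nat.Coprime κ.natAbs N) :
    tv s (Ww d m (kr κ r)) D N = tv s (Ww d m r) D N := by
  have hcop : IsCoprime κ (N : ℤ) := by
    rw [Int.isCoprime_iff_nat_coprime]
    simpa using hκ
  have hcopD : IsCoprime κ (D : ℤ) := by
    rw [Int.isCoprime_iff_nat_coprime]
    simpa using Nat.Coprime.coprime_dvd_right hDN hκ
  have key : ∀ (E : ℕ), IsCoprime κ (E : ℤ) → ∀ c : ℤ,
      cnt s (Ww d m (kr κ r)) E (κ * c) = cnt s (Ww d m r) E c := by
    intro E hE c
    unfold cnt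
    congr 2
    ext w
    simp only [mem_filter, and_congr_right_iff]
    intro _
    rw [Ww_kr, ← mul_sub]
    constructor
    · intro h1; exact hE.symm.dvd_of_dvd_mul_left h1
    · intro h1; exact Dvd.dvd.mul_left h1 _
  have hper : ∀ (E : ℕ), E ∣ N → ∀ x y : ℤ, (N : ℤ) ∣ x - y →
      cnt s (Ww d m (kr κ r)) E x = cnt s (Ww d m (kr κ r)) E y := by
    intro E hE x y hxy
    have hE' : (E : ℤ) ∣ x - y := (Int.natCast_dvd_natCast.2 hE).trans hxy
    unfold cnt
    congr 2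
    ext w
    simp only [mem_filter, and_congr_right_iff]
    intro _
    constructor
    · intro h1
      have := dvd_add h1 hE'
      rwa [sub_add_sub_cancel] at this
    · intro h1
      have := dvd_sub h1 hE'
      rwa [show Ww d m (kr κ r) w - y - (x - y) = Ww d m (kr κ r) w - x by ring] at this
  unfold tv
  rw [sum_resid N hN κ hκ (fun c => |cnt s (Ww d m (kr κ r)) N c
    - cnt s (Ww d m (kr κ r)) D c * D / N|) (by
      intro x y hxy
      rw [hper N (dvd_refl _) x y hxy, hper D hDN x y hxy])]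
  apply sum_congr rfl
  intro c _
  rw [key N hcop, key D hcopD]

open scoped Classical in
/-- the one stage inequality (`stage'` of `H828R3.GP.Stage`) for the offsets `κ r` at the scale `|κ| a`,
uniformly in `κ` -/
theorem stageU (h : Adm d m r) (B : ℕ) (ν₀ : ℝ) (hν₀ : 0 < ν₀) : ∃ lo hi ν L₀ C : ℝ, ν ≤ ν₀ ∧ 0 < lo ∧ lo ≤ hi ∧ hi < 1 ∧ 0 < ν ∧
    1 ≤ L₀ ∧ 0 < C ∧ ∀ κ : ℤ, κ ≠ 0 → IsCoprime κ (PP d m : ℤ) → Adm d m (kr κ r) →
      ∀ S : Set ℤ, (∀ x ∈ S, Tm d m (kr κ r) x ∈ S) → ∀ a ρ : ℝ, 0 < a → L₀ ≤ Real.log a →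
      0 ≤ ρ →
      (∀ a' : ℝ, 0 < a' → lo * Real.log a ≤ Real.log a' → Real.log a' ≤ hi * Real.log a →
        PB S (|(κ : ℝ)| * a') (PP d m ^ ⌊ν * Real.log a'⌋₊) ρ) →
      PB S (|(κ : ℝ)| * a) (PP d m ^ ⌊ν * Real.log a⌋₊) (ρ + C / (Real.log a) ^ B) := by
  have hd2 : 2 ≤ d := h.two_le
  have hdR2 : (2 : ℝ) ≤ d := by exact_mod_cast hd2
  have hdR0 : (0 : ℝ) < d := by linarith
  have hPR2 : (2 : ℝ) ≤ PP d m := by exact_mod_cast h.big
  have hPR0 : (0 : ℝ) < PP d m := by linarith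
  have hP0 : 0 < PP d m := by have := h.big; omega
  have hld : 1 / 2 < Real.log d := by
    have h1 : Real.log 2 ≤ Real.log d := Real.log_le_log (by norm_num) hdR2
    have h2 := Real.log_two_gt_d9
    linarith
  have hld0 : 0 < Real.log d := by linarith
  have hlP : 0 < Real.log (PP d m) := Real.log_pos (by linarith)
  have hc : Real.log (PP d m) < d * Real.log d := by
    have h1 : ((PP d m : ℕ) : ℝ) < (d : ℝ) ^ d := by exact_mod_cast h.contr
    have h2 := Real.log_lt_log hPR0 h1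
    rwa [Real.log_pow] at h2
  obtain ⟨δ₁, hδ₁0, hδ₁1, htv⟩ := tv_groups h B
  obtain ⟨δ, hδ0, hδδ, hδν⟩ : ∃ δ : ℝ, 0 < δ ∧ δ ≤ δ₁ ∧ δ / (4 * d * Real.log d) ≤ ν₀ := by
    refine ⟨min δ₁ (4 * d * Real.log d * ν₀), lt_min hδ₁0 (by positivity), min_le_left _ _, ?_⟩
    rw [div_le_iff₀ (by positivity), mul_comm ν₀]
    exact min_le_right _ _
  have hδ1 : δ ≤ 1 := hδδ.trans hδ₁1
  obtain ⟨hi, ν, η, L₀, hνν, hhi1, hhi2, hν0, hη0, hη1, hL, hpar⟩ :=
    s3_params' (D := d) (ld := Real.log d) (lP := Real.log (PP d m)) hdR2 hld hlP hc hδ0 hδ1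
  obtain ⟨Ct, hCt, htvC⟩ := htv (ν * Real.log d / 8) (by positivity)
  obtain ⟨ct, hct, htyp⟩ := typical hd2 (η := η / d) (by positivity)
  obtain ⟨lam, Cm, hlam, hCm, hmom⟩ := moment h
  obtain ⟨K1, hK1, hexp1⟩ := s3_exp (ct / √(2 * Real.log d)) (by positivity) B
  obtain ⟨K2, hK2, hexp2⟩ := s3_exp (lam / √(2 * Real.log d)) (by positivity) B
  obtain ⟨K3, hK3, hexp3⟩ := s3_exp 1 one_pos B
  set C : ℝ := 4 * (2 * d * K1 + Cm * K2) + 8 * K3 + 4 * (Ct * (2 * Real.log d) ^ B) with hC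
  have hC0 : 0 < C := by positivity
  refine ⟨1 / 4, hi, ν, L₀, C, hνν.trans hδν, by norm_num, hhi1, hhi2, hν0, by linarith, hC0, ?_⟩
  intro κ hκ0 hκc h' S hS a ρ ha hLa hρ hyp
  have hκ1 : (1 : ℝ) ≤ |(κ : ℝ)| := by
    have := Int.one_le_abs hκ0
    exact_mod_cast this
  have hκp : (0 : ℝ) < |(κ : ℝ)| := by linarith
  set t : ℝ := Real.log a with ht
  have ht144 : 144 ≤ t := hL.trans hLa
  have ht0 : 0 < t := by linarith
  have haexp : a = Real.exp t := (Real.exp_log ha).symm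
  obtain ⟨hk1, hνk, hq0q, hqk, hi12, hi2q, hi1q, hqlP, hk2, hkle, hM⟩ :=
    hpar t hLa _ _ _ _ _ rfl rfl rfl rfl rfl
  set k : ℕ := ⌊3 / 4 * t / Real.log d⌋₊ with hk
  set q : ℕ := ⌊ν * t⌋₊ with hq
  set q₀ : ℕ := ⌊ν * (t / 4)⌋₊ with hq₀
  set i₁ : ℕ := ⌊(1 - η) * k / d⌋₊ with hi₁
  set i₂ : ℕ := ⌈(1 + η) * k / d⌉₊ with hi₂
  intro c
  set A : ℝ := |(κ : ℝ)| * a with hAdef
  have hA0 : 0 < A := mul_pos hκp ha
  have haA : a ≤ A := by
    calc a = 1 * a := (one_mul a).symm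
      _ ≤ _ := mul_le_mul_of_nonneg_right hκ1 ha.le
  have hkR1 : (1 : ℝ) ≤ k := by exact_mod_cast hk1
  have hkR0 : (0 : ℝ) < k := by linarith
  -- exponentials
  have hdk : (d : ℝ) ^ k = Real.exp (k * Real.log d) := by
    rw [Real.exp_nat_mul, Real.exp_log hdR0]
  have hPq : ((PP d m ^ q : ℕ) : ℝ) = Real.exp (q * Real.log (PP d m)) := by
    rw [Real.exp_nat_mul, Real.exp_log hPR0, Nat.cast_pow]
  have hdk0 : (0 : ℝ) < (d : ℝ) ^ k := by positivity
  have hQ0 : 0 < PP d m ^ q := pow_pos hP0 q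
  have hQR : (0 : ℝ) < ((PP d m ^ q : ℕ) : ℝ) := by exact_mod_cast hQ0
  have hst : √t * √t = t := Real.mul_self_sqrt ht0.le
  have hst12 : 12 ≤ √t := by
    apply Real.le_sqrt_of_sq_le; linarith
  have hkQ : (d : ℝ) ^ k * ((PP d m ^ q : ℕ) : ℝ) ≤ a := by
    rw [hdk, hPq, haexp, ← Real.exp_add]
    apply Real.exp_le_exp.2
    linarith
  have hk4 : (k : ℝ) ≤ 4 * t := by
    have : (k : ℝ) * (1 / 2) ≤ k * Real.log d := mul_le_mul_of_nonneg_left hld.le hkR0.le
    linarith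
  have hsk : √(k : ℝ) ≤ 2 * √t := by
    have h1 : √(k : ℝ) ≤ √(4 * t) := Real.sqrt_le_sqrt hk4
    have h2 : √(4 * t) = 2 * √t := by
      rw [Real.sqrt_mul (by norm_num), show (4 : ℝ) = 2 ^ 2 by norm_num,
        Real.sqrt_sq (by norm_num)]
    rwa [h2] at h1
  have hE : (d : ℝ) ^ k * Real.exp (√(k : ℝ)) ≤ a * Real.exp (-(1 * √t)) := by
    rw [hdk, haexp, ← Real.exp_add, ← Real.exp_add]
    apply Real.exp_le_exp.2
    nlinarith
  have hQa : ((PP d m ^ q : ℕ) : ℝ) ≤ a * Real.exp (-(1 * √t)) := by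
    rw [hPq, haexp, ← Real.exp_add]
    apply Real.exp_le_exp.2
    nlinarith
  have hexple : Real.exp (-(1 * √t)) ≤ 1 := by
    rw [Real.exp_le_one_iff]
    linarith [Real.sqrt_nonneg t]
  have hskge : √t / √(2 * Real.log d) ≤ √(k : ℝ) := by
    rw [← Real.sqrt_div ht0.le]
    apply Real.sqrt_le_sqrt
    rw [div_le_iff₀ (by positivity)]
    linarith
  -- small terms
  have hs1 : Real.exp (-(ct * k)) ≤ K1 / t ^ B := by
    refine le_trans (Real.exp_le_exp.2 ?_) (hexp1 t ht0)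
    have h1 : √(k : ℝ) ≤ k := by
      have h2 : √(k : ℝ) * √(k : ℝ) = k := Real.mul_self_sqrt hkR0.le
      have h3 : 1 ≤ √(k : ℝ) := Real.one_le_sqrt.2 hkR1
      nlinarith
    have h4 : ct / √(2 * Real.log d) * √t = ct * (√t / √(2 * Real.log d)) := by ring
    rw [h4]
    have h5 : ct * (√t / √(2 * Real.log d)) ≤ ct * k :=
      mul_le_mul_of_nonneg_left (hskge.trans h1) hct.le
    linarith
  have hs2 : Real.exp (-(lam * √(k : ℝ))) ≤ K2 / t ^ B := by
    refine le_trans (Real.exp_le_exp.2 ?_) (hexp2 t ht0)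
    have h4 : lam / √(2 * Real.log d) * √t = lam * (√t / √(2 * Real.log d)) := by ring
    rw [h4]
    have h5 := mul_le_mul_of_nonneg_left hskge hlam.le
    linarith
  have hs3 : Real.exp (-(1 * √t)) ≤ K3 / t ^ B := hexp3 t ht0
  have hs4 : 1 / (k : ℝ) ^ B ≤ (2 * Real.log d) ^ B / t ^ B := by
    rw [div_le_div_iff₀ (by positivity) (by positivity), one_mul, ← mul_pow]
    apply pow_le_pow_left₀ ht0.le
    linarith
  -- the bad words
  set Bad : Finset (List ℕ) :=
    ((LW d k).filter fun w => ∃ i < d, η / d * k < |(w.count i : ℝ) - k / d|) ∪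
    ((LW d k).filter fun w => (d : ℝ) ^ k * Real.exp (√(k : ℝ)) < |(Ww d m r w : ℝ)|) with hBad
  have hBadcard : (Bad.card : ℝ) ≤ (d : ℝ) ^ k *
      (2 * d * Real.exp (-(ct * k)) + Cm * Real.exp (-(lam * √(k : ℝ)))) := by
    have h1 : (Bad.card : ℝ) ≤
        (((LW d k).filter fun w => ∃ i < d, η / d * k < |(w.count i : ℝ) - k / d|).card : ℝ) +
        (((LW d k).filter fun w =>
          (d : ℝ) ^ k * Real.exp (√(k : ℝ)) < |(Ww d m r w : ℝ)|).card : ℝ) := by
      rw [← Nat.cast_add]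
      exact Nat.cast_le.2 (Finset.card_union_le _ _)
    have h2 := htyp k
    have h3 := hmom k
    have h4 : (d : ℝ) ^ k * (2 * d * Real.exp (-(ct * k)) + Cm * Real.exp (-(lam * √(k : ℝ))))
      = 2 * d * ((d : ℝ) ^ k * Real.exp (-(ct * k)))
        + Cm * (d : ℝ) ^ k * Real.exp (-(lam * √(k : ℝ))) := by ring
    rw [h4]
    exact h1.trans (add_le_add h2 h3)
  have hV : ∀ w ∈ LW d k, w ∉ Bad → |(Ww d m r w : ℝ)| ≤ (d : ℝ) ^ k * Real.exp (√(k : ℝ)) := by
    intro w hw hwB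
    by_contra hcon
    rw [not_le] at hcon
    exact hwB (Finset.mem_union_right _ (Finset.mem_filter.2 ⟨hw, hcon⟩))
  have hV' : ∀ w ∈ LW d k, w ∉ Bad →
      |(Ww d m (kr κ r) w : ℝ)| ≤ (d : ℝ) ^ k * (|(κ : ℝ)| * Real.exp (√(k : ℝ))) := by
    intro w hw hwB
    rw [Ww_kr, Int.cast_mul, abs_mul]
    calc |(κ : ℝ)| * |(Ww d m r w : ℝ)| ≤ |(κ : ℝ)| * ((d : ℝ) ^ k * Real.exp (√(k : ℝ))) :=
          mul_le_mul_of_nonneg_left (hV w hw hwB) hκp.le
      _ = _ := by ring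
  have hcnt : ∀ w ∈ LW d k, w ∉ Bad →
      PP d m ^ i₁ ∣ (Mw m w).natAbs ∧ (Mw m w).natAbs ∣ PP d m ^ i₂ := by
    intro w hw hwB
    have hcw : ∀ i < d, |(w.count i : ℝ) - k / d| ≤ η / d * k := by
      intro i hid
      by_contra hcon
      rw [not_le] at hcon
      exact hwB (Finset.mem_union_left _ (Finset.mem_filter.2 ⟨hw, i, hid, hcon⟩))
    constructor
    · apply dvd_Mw hw
      intro i hid
      have h1 := (abs_le.1 (hcw i hid)).1
      rw [hi₁]
      apply Nat.floor_le_of_le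
      have e : (1 - η) * (k : ℝ) / d = k / d - η / d * k := by ring
      rw [e]
      linarith
    · apply Mw_dvd hw
      intro i hid
      have h1 := (abs_le.1 (hcw i hid)).2
      have h2 : (w.count i : ℝ) ≤ i₂ := by
        refine le_trans ?_ (Nat.le_ceil _)
        have e : (1 + η) * (k : ℝ) / d = k / d + η / d * k := by ring
        rw [e]
        linarith
      exact_mod_cast h2
  have hPB : ∀ M ∈ (Ms d m k).filter (fun M => PP d m ^ i₁ ∣ M.natAbs ∧ M.natAbs ∣ PP d m ^ i₂),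
      PB S (|(M : ℝ)| * A / (d : ℝ) ^ k) (PP d m ^ q₀) ρ := by
    intro M hMF
    rw [Finset.mem_filter] at hMF
    obtain ⟨hMs, _, hMi2⟩ := hMF
    have hMpos : 0 < M.natAbs := Nat.pos_of_dvd_of_pos hMi2 (pow_pos hP0 _)
    have hMabs : ((M.natAbs : ℕ) : ℝ) = |(M : ℝ)| := by rw [Nat.cast_natAbs, Int.cast_abs]
    have hM1 : (1 : ℝ) ≤ |(M : ℝ)| := by rw [← hMabs]; exact_mod_cast hMpos
    have hM2 : |(M : ℝ)| ≤ (PP d m : ℝ) ^ i₂ := by
      rw [← hMabs]; exact_mod_cast Nat.le_of_dvd (pow_pos hP0 _) hMi2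
    have hM0 : (0 : ℝ) < |(M : ℝ)| := by linarith
    set a' : ℝ := |(M : ℝ)| * a / (d : ℝ) ^ k with ha'
    have ha'0 : 0 < a' := by positivity
    have hlog : Real.log a' = Real.log |(M : ℝ)| + t - k * Real.log d := by
      rw [ha', Real.log_div (by positivity) (by positivity), Real.log_mul hM0.ne' ha.ne',
        Real.log_pow]
    have hl0 : 0 ≤ Real.log |(M : ℝ)| := Real.log_nonneg hM1
    have hl2 : Real.log |(M : ℝ)| ≤ i₂ * Real.log (PP d m) := by
      have := Real.log_le_log hM0 hM2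
      rwa [Real.log_pow] at this
    have hge : 1 / 4 * t ≤ Real.log a' := by rw [hlog]; linarith
    have hle : Real.log a' ≤ hi * t := by rw [hlog]; exact hM _ hl2
    have eA : |(M : ℝ)| * A / (d : ℝ) ^ k = |(κ : ℝ)| * a' := by rw [ha', hAdef]; ring
    rw [eA]
    refine PB.coarse (mul_pos hκp ha'0) (pow_pos hP0 _) (pow_dvd_pow _ ?_) (hyp a' ha'0 hge hle)
    rw [hq₀]
    apply Nat.floor_le_floor
    have := mul_le_mul_of_nonneg_left hge hν0.le
    linarith
  have hcount := s3_count h' hS hA0 (k := k) (Q := PP d m ^ q) (Q₀ := PP d m ^ q₀) (i₁ := i₁)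
    (i₂ := i₂) hQ0 (pow_pos hP0 _) (pow_dvd_pow _ hq0q) ?_ (hkQ.trans haA) c hρ Bad
    (V := |(κ : ℝ)| * Real.exp (√(k : ℝ))) (by positivity) ?_ hV' hcnt hPB
  · have hi2q' : ((i₂ + q : ℕ) : ℝ) ≤ (1 + δ₁) * ((i₁ + q : ℕ) : ℝ) := by
      refine hi2q.trans (mul_le_mul_of_nonneg_right (by linarith) (Nat.cast_nonneg _))
    have hi1q' : (1 - δ₁) * d * ((i₁ + q : ℕ) : ℝ) ≤ k := by
      refine le_trans ?_ hi1q
      apply mul_le_mul_of_nonneg_right _ (Nat.cast_nonneg _)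
      exact mul_le_mul_of_nonneg_right (by linarith) (by linarith)
    have htvk := htvC k i₁ i₂ q₀ q hk1 hνk hq0q hqk hi12 hi2q' hi1q'
    have hTeq : ∑ M ∈ (Ms d m k).filter
        (fun M => PP d m ^ i₁ ∣ M.natAbs ∧ M.natAbs ∣ PP d m ^ i₂),
          tv (gr d m k M) (Ww d m (kr κ r)) (PP d m ^ q₀) (M.natAbs * PP d m ^ q) =
        ∑ M ∈ (Ms d m k).filter
        (fun M => PP d m ^ i₁ ∣ M.natAbs ∧ M.natAbs ∣ PP d m ^ i₂),
          tv (gr d m k M) (Ww d m r) (PP d m ^ q₀) (M.natAbs * PP d m ^ q) := by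
      apply Finset.sum_congr rfl
      intro M hMF
      rw [Finset.mem_filter] at hMF
      have hMpos : 0 < M.natAbs := Nat.pos_of_dvd_of_pos hMF.2.2 (pow_pos hP0 _)
      have hcopP : Nat.Coprime κ.natAbs (PP d m) := by
        have h0 := Int.isCoprime_iff_nat_coprime.1 hκc
        simpa using h0
      apply tv_kr
      · exact Nat.mul_pos hMpos (pow_pos hP0 _)
      · exact Dvd.dvd.mul_left (pow_dvd_pow _ hq0q) _
      · rw [Nat.coprime_mul_iff_right]
        exact ⟨Nat.Coprime.coprime_dvd_right hMF.2.2 (hcopP.pow_right _), hcopP.pow_right _⟩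
    rw [hTeq] at hcount
    set T : ℝ := ∑ M ∈ (Ms d m k).filter
      (fun M => PP d m ^ i₁ ∣ M.natAbs ∧ M.natAbs ∣ PP d m ^ i₂),
        tv (gr d m k M) (Ww d m r) (PP d m ^ q₀) (M.natAbs * PP d m ^ q) with hT
    set Q : ℝ := ((PP d m ^ q : ℕ) : ℝ) with hQdef
    set u : ℝ := A / Q with hu
    have hu0 : 0 < u := by positivity
    have e1 : 4 * A / ((d : ℝ) ^ k * Q) = 4 * u / (d : ℝ) ^ k := by
      rw [hu]; field_simp
    have t1 : (Bad.card : ℝ) * (4 * A / ((d : ℝ) ^ k * Q)) ≤ (2 * d * (K1 / t ^ B) + Cm * (K2 / t ^ B)) * (4 * u) := by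
      rw [e1]
      have h1 : (Bad.card : ℝ) ≤ (d : ℝ) ^ k * (2 * d * (K1 / t ^ B) + Cm * (K2 / t ^ B)) := by
        refine hBadcard.trans (mul_le_mul_of_nonneg_left ?_ hdk0.le)
        exact add_le_add (mul_le_mul_of_nonneg_left hs1 (by positivity))
          (mul_le_mul_of_nonneg_left hs2 hCm.le)
      have h2 := mul_le_mul_of_nonneg_right h1 (show (0 : ℝ) ≤ 4 * u / (d : ℝ) ^ k by positivity)
      refine h2.trans (le_of_eq ?_)
      field_simp
    have t2 : 4 * ((d : ℝ) ^ k * (|(κ : ℝ)| * Real.exp (√(k : ℝ))) / Q + 1) ≤ 8 * (K3 / t ^ B) * u := by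
      have h1 : (d : ℝ) ^ k * (|(κ : ℝ)| * Real.exp (√(k : ℝ))) / Q ≤ u * Real.exp (-(1 * √t)) := by
        rw [hu, div_mul_eq_mul_div]
        apply div_le_div_of_nonneg_right _ hQR.le
        have := mul_le_mul_of_nonneg_left hE hκp.le
        calc (d : ℝ) ^ k * (|(κ : ℝ)| * Real.exp (√(k : ℝ))) =
            |(κ : ℝ)| * ((d : ℝ) ^ k * Real.exp (√(k : ℝ))) := by ring
          _ ≤ |(κ : ℝ)| * (a * Real.exp (-(1 * √t))) := this
          _ = A * Real.exp (-(1 * √t)) := by rw [hAdef]; ring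
      have h2 : 1 ≤ u * Real.exp (-(1 * √t)) := by
        rw [hu, div_mul_eq_mul_div, le_div_iff₀ hQR, one_mul]
        exact hQa.trans (mul_le_mul_of_nonneg_right haA (Real.exp_pos _).le)
      have h3 : u * Real.exp (-(1 * √t)) ≤ u * (K3 / t ^ B) :=
        mul_le_mul_of_nonneg_left hs3 hu0.le
      linarith
    have t3 : ρ * (2 * A) / Q = 2 * ρ * u := by rw [hu]; ring
    have t4 : 4 * A / ((d : ℝ) ^ k * Q) * T ≤ 4 * (Ct * ((2 * Real.log d) ^ B / t ^ B)) * u := by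
      rw [e1]
      have h1 : T ≤ Ct * (d : ℝ) ^ k * (1 / (k : ℝ) ^ B) := by
        refine htvk.trans (le_of_eq ?_); ring
      have h2 : T ≤ Ct * (d : ℝ) ^ k * ((2 * Real.log d) ^ B / t ^ B) :=
        h1.trans (mul_le_mul_of_nonneg_left hs4 (by positivity))
      have h3 := mul_le_mul_of_nonneg_left h2 (show (0 : ℝ) ≤ 4 * u / (d : ℝ) ^ k by positivity)
      refine h3.trans (le_of_eq ?_)
      field_simp
    have goal : (ρ + C / t ^ B) * (2 * A) / Q = 2 * ρ * u + 2 * (C / t ^ B) * u := by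
      rw [hu]; ring
    rw [goal]
    have hCexp : C / t ^ B = 4 * (2 * d * (K1 / t ^ B) + Cm * (K2 / t ^ B)) + 8 * (K3 / t ^ B)
        + 4 * (Ct * ((2 * Real.log d) ^ B / t ^ B)) := by
      rw [hC]; ring
    have hCpos : 0 ≤ C / t ^ B * u := by positivity
    have hfin : (2 * d * (K1 / t ^ B) + Cm * (K2 / t ^ B)) * (4 * u) + 8 * (K3 / t ^ B) * u
        + 4 * (Ct * ((2 * Real.log d) ^ B / t ^ B)) * u = C / t ^ B * u := by
      rw [hCexp]; ring
    linarith
  · -- coprimality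
    apply Nat.Coprime.pow_left
    unfold PP
    apply Nat.Coprime.prod_left
    intro i hir
    have := h.cop i (Finset.mem_range.1 hir)
    rw [Int.isCoprime_iff_gcd_eq_one] at this
    have h2 : Int.gcd (m i) (d : ℤ) = Nat.gcd (m i).natAbs d := by
      rw [Int.gcd_def]; simp
    rw [h2] at this
    exact this
  · calc (d : ℝ) ^ k * (|(κ : ℝ)| * Real.exp (√(k : ℝ))) =
        |(κ : ℝ)| * ((d : ℝ) ^ k * Real.exp (√(k : ℝ))) := by ring
      _ ≤ |(κ : ℝ)| * (a * Real.exp (-(1 * √t))) := mul_le_mul_of_nonneg_left hE hκp.le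
      _ ≤ |(κ : ℝ)| * (a * 1) :=
          mul_le_mul_of_nonneg_left (mul_le_mul_of_nonneg_left hexple ha.le) hκp.le
      _ = A := by rw [mul_one]


/-- the iteration over the scales above a starting scale, for windows at `κ a` -/
theorem restartU {S : Set ℤ} {B P : ℕ} {lo hi ν L₀ C : ℝ} {κ : ℝ} (hκ : 0 < κ) (hB : 1 ≤ B) (hlo : 0 < lo)
    (hlh : lo ≤ hi) (hhi : hi < 1) (hC : 0 < C)
    (hst : ∀ a ρ : ℝ, 0 < a → L₀ ≤ Real.log a → 0 ≤ ρ →
      (∀ a' : ℝ, 0 < a' → lo * Real.log a ≤ Real.log a' → Real.log a' ≤ hi * Real.log a →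
        PB S (κ * a') (P ^ ⌊ν * Real.log a'⌋₊) ρ) →
      PB S (κ * a) (P ^ ⌊ν * Real.log a⌋₊) (ρ + C / (Real.log a) ^ B))
    {t₁ ρ₀ : ℝ} (ht₁ : L₀ ≤ t₁) (ht0 : 0 < t₁) (hρ₀ : 0 ≤ ρ₀)
    (hbase : ∀ a : ℝ, 0 < a → lo * t₁ ≤ Real.log a → Real.log a ≤ t₁ →
      PB S (κ * a) (P ^ ⌊ν * Real.log a⌋₊) ρ₀)
    (a : ℝ) (ha : 0 < a) (hla : lo * t₁ ≤ Real.log a) :
    PB S (κ * a) (P ^ ⌊ν * Real.log a⌋₊)
      (ρ₀ + C / ((1 / hi) ^ B - 1) * (1 / (lo * t₁)) ^ B) := by
  set l : ℝ := t₁ with hl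
  have hl0 : 0 < l := ht0
  have hhi0 : 0 < hi := hlo.trans_le hlh
  have hq1 : 1 < (1 / hi) ^ B := by
    apply one_lt_pow₀ _ (by omega)
    rw [one_lt_div hhi0]; exact hhi
  set K : ℝ := C / ((1 / hi) ^ B - 1) with hK
  have hK0 : 0 < K := div_pos hC (by linarith)
  have hKe : K * ((1 / hi) ^ B - 1) = C := by
    rw [hK]; exact div_mul_cancel₀ _ (by linarith)
  set g : ℝ → ℝ := fun s => K * ((1 / (lo * l)) ^ B - (1 / s) ^ B) with hg
  have hll : 0 < lo * l := mul_pos hlo hl0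
  have hgmono : ∀ s s' : ℝ, 0 < s → s ≤ s' → g s ≤ g s' := by
    intro s s' hs hss
    simp only [hg]
    have hs' : 0 < s' := by linarith
    have h1 : (1 / s') ^ B ≤ (1 / s) ^ B := by gcongr
    exact mul_le_mul_of_nonneg_left (by linarith) hK0.le
  have hg0 : ∀ s : ℝ, lo * l ≤ s → 0 ≤ g s := by
    intro s hs
    have h1 := hgmono (lo * l) s hll hs
    have h2 : g (lo * l) = 0 := by simp only [hg]; rw [sub_self, mul_zero]
    linarith
  have key : ∀ n : ℕ, ∀ a : ℝ, 0 < a → lo * l ≤ Real.log a → hi ^ n * Real.log a ≤ l →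
      PB S (κ * a) (P ^ ⌊ν * Real.log a⌋₊) (ρ₀ + g (Real.log a)) := by
    intro n
    induction n with
    | zero =>
      intro a ha h1 h2
      rw [pow_zero, one_mul] at h2
      exact I1_PB_mono (mul_pos hκ ha) (hbase a ha h1 h2) (by linarith [hg0 _ h1])
    | succ n ih =>
      intro a ha h1 h2
      by_cases hal : Real.log a ≤ l
      · exact I1_PB_mono (mul_pos hκ ha) (hbase a ha h1 hal) (by linarith [hg0 _ h1])
      · push Not at hal
        have hla0 : 0 < Real.log a := by linarith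
        have h3 : lo * l ≤ hi * Real.log a := by
          calc lo * l ≤ hi * l := by gcongr
            _ ≤ hi * Real.log a := by gcongr
        have h4 := hst a (ρ₀ + g (hi * Real.log a)) ha (by linarith) (by linarith [hg0 _ h3]) (by
          intro a' ha' h5 h6
          have h7 : lo * l ≤ Real.log a' := by
            refine le_trans ?_ h5
            gcongr
          have h8 : hi ^ n * Real.log a' ≤ l := by
            calc hi ^ n * Real.log a' ≤ hi ^ n * (hi * Real.log a) := by gcongr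
              _ = hi ^ (n + 1) * Real.log a := by ring
              _ ≤ l := h2
          exact I1_PB_mono (mul_pos hκ ha') (ih a' ha' h7 h8) (by linarith [hgmono _ _ (by linarith) h6]))
        apply I1_PB_mono (mul_pos hκ ha) h4
        simp only [hg]
        have h9 : (1 / (hi * Real.log a)) ^ B = (1 / hi) ^ B * (1 / Real.log a) ^ B := by
          rw [← mul_pow]
          congr 1
          field_simp
        have h10 : C / Real.log a ^ B = C * (1 / Real.log a) ^ B := by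
          rw [one_div, inv_pow]; ring
        rw [h9, h10, ← hKe]
        apply le_of_eq
        ring
  obtain ⟨n, hn⟩ : ∃ n : ℕ, hi ^ n * Real.log a ≤ l := by
    have h1 : 0 < l / (|Real.log a| + 1) := by positivity
    obtain ⟨n, hn⟩ := exists_pow_lt_of_lt_one h1 hhi
    refine ⟨n, ?_⟩
    rw [lt_div_iff₀ (by positivity)] at hn
    have h2 : hi ^ n * Real.log a ≤ hi ^ n * (|Real.log a| + 1) := by
      gcongr
      have := le_abs_self (Real.log a)
      linarith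
    linarith
  refine I1_PB_mono (mul_pos hκ ha) (key n a ha hla hn) ?_
  simp only [hg]
  gcongr
  have : 0 ≤ (1 / Real.log a) ^ B := by
    have : 0 < Real.log a := by linarith
    positivity
  linarith

end Pool.Agent.W36
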